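import Pool.Agent.H6.LW.Near

/-!
# Covering radius

Choose three integer vectors `v₁, v₂, v₃` of size at most `C` with nonzero determinant (use
`Loc.short` three times: any functional; a functional vanishing on `v₁`; the cross product of
`v₁` and `v₂`), write the vector with coordinates `b` as a real combination and round the
coefficients.
-/

open Real Matrix

namespace Pool.Agent.H6.LU

open Pool.Agent.H6.LW

private lemma Cover_crd (α β : ℝ) (z : ℝ × ℝ) (p q r : Fin 3 → ℝ) (x y w : ℝ) (i : Fin 3) :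
    crd α β z (x • p + y • q + w • r) i =
      x * crd α β z p i + y * crd α β z q i + w * crd α β z r i := by
  unfold crd
  rw [Matrix.mulVec_add, Matrix.mulVec_add, Matrix.mulVec_smul, Matrix.mulVec_smul,
    Matrix.mulVec_smul]
  simp only [Pi.add_apply, Pi.smul_apply, smul_eq_mul]
  ring

theorem exists_close {α β δ C : ℝ} {z : ℝ × ℝ} (h : Loc α β δ C z) (hC : 0 ≤ C)
    (b : Fin 3 → ℝ) : ∃ v : Fin 3 → ℤ, ∀ i, |crd α β z (cv v) i - b i| ≤ 3 * C / 2 := by
  -- three independent short vectors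
  obtain ⟨p, hp, hp0⟩ := h.short ![1, 0, 0] (by
    intro h0
    have := congrFun h0 0
    simp at this)
  have hp1 : (p 0 : ℝ) ≠ 0 := by
    simpa [Fin.sum_univ_three] using hp0
  obtain ⟨q, hq, hq0⟩ := h.short ![(p 1 : ℝ), -(p 0 : ℝ), 0] (by
    intro h0
    have := congrFun h0 1
    apply hp1
    simpa using this)
  have hq1 : (p 1 : ℝ) * q 0 - p 0 * q 1 ≠ 0 := by
    intro h0
    apply hq0
    simp [Fin.sum_univ_three]
    linarith
  obtain ⟨r, hr, hr0⟩ := h.short ![(p 1 : ℝ) * q 2 - p 2 * q 1, (p 2 : ℝ) * q 0 - p 0 * q 2,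
      (p 0 : ℝ) * q 1 - p 1 * q 0] (by
    intro h0
    have h1 : (p 0 : ℝ) * q 1 - p 1 * q 0 = 0 := by
      have := congrFun h0 2
      simpa using this
    apply hq1
    linarith)
  set V : Matrix (Fin 3) (Fin 3) ℝ := Matrix.of fun i j => ![(p i : ℝ), q i, r i] j with hV
  have hdet : V.det ≠ 0 := by
    intro h0
    apply hr0
    rw [Matrix.det_fin_three] at h0
    simp [hV] at h0
    simp [Fin.sum_univ_three]
    linarith
  -- the real vector with coordinates b
  set x : Fin 3 → ℝ := (H α β).mulVec (fun i => exp (-wt z i) * b i) with hx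
  have hxb : ∀ i, crd α β z x i = b i := by
    intro i
    rw [crd, hx, Matrix.mulVec_mulVec, H_mul_H, Matrix.one_mulVec, ← mul_assoc, ← exp_add]
    simp
  set t : Fin 3 → ℝ := V⁻¹.mulVec x with ht
  have hxt : x = t 0 • cv p + t 1 • cv q + t 2 • cv r := by
    have h1 : V.mulVec t = x := by
      rw [ht, Matrix.mulVec_mulVec, Matrix.mul_nonsing_inv _ (isUnit_iff_ne_zero.2 hdet),
        Matrix.one_mulVec]
    rw [← h1]
    ext i
    simp [hV, Matrix.mulVec, dotProduct, Fin.sum_univ_three, cv]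
    ring
  refine ⟨round (t 0) • p + round (t 1) • q + round (t 2) • r, ?_⟩
  intro i
  have hcv : cv (round (t 0) • p + round (t 1) • q + round (t 2) • r) =
      (round (t 0) : ℝ) • cv p + (round (t 1) : ℝ) • cv q + (round (t 2) : ℝ) • cv r := by
    ext j
    simp [cv]
  rw [← hxb i, hcv, hxt, Cover_crd, Cover_crd]
  have e : (round (t 0) : ℝ) * crd α β z (cv p) i + (round (t 1) : ℝ) * crd α β z (cv q) i +
      (round (t 2) : ℝ) * crd α β z (cv r) i - (t 0 * crd α β z (cv p) i +
      t 1 * crd α β z (cv q) i + t 2 * crd α β z (cv r) i) =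
      -((t 0 - round (t 0)) * crd α β z (cv p) i + (t 1 - round (t 1)) * crd α β z (cv q) i +
      (t 2 - round (t 2)) * crd α β z (cv r) i) := by ring
  rw [e, abs_neg]
  have hb1 : ∀ (s c : ℝ), |c| ≤ C → |(s - round s) * c| ≤ C / 2 := by
    intro s c hc
    rw [abs_mul]
    have h2 := abs_sub_round s
    calc |s - round s| * |c| ≤ 1 / 2 * C := mul_le_mul h2 hc (abs_nonneg _) (by norm_num)
      _ = C / 2 := by ring
  have h1 := hb1 (t 0) _ ((crd_le_size α β z (cv p) i).trans hp)
  have h2 := hb1 (t 1) _ ((crd_le_size α β z (cv q) i).trans hq)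
  have h3 := hb1 (t 2) _ ((crd_le_size α β z (cv r) i).trans hr)
  refine (abs_add_three _ _ _).trans ?_
  linarith

end Pool.Agent.H6.LU
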