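import Pool.Agent.H6.LW.Struct

/-!
# Eigenframes

`Q` is the matrix of the eigenvectors of `γ` in the coordinates of the three forms, normalised to
have ones on the diagonal; `ν` are the eigenvalues.
-/

open Real Matrix

namespace Pool.Agent.H6.LU

open Pool.Agent.H6.LW

/-- the matrix of `γ` in the coordinates of the three forms -/
noncomputable def hg (α β : ℝ) (γ : Matrix (Fin 3) (Fin 3) ℤ) : Matrix (Fin 3) (Fin 3) ℝ :=
  H α β * rm γ * H α β

/-- size of an entry of `Q` in the frame at `z` -/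
noncomputable def qq (Q : Matrix (Fin 3) (Fin 3) ℝ) (z : ℝ × ℝ) (i j : Fin 3) : ℝ :=
  exp (wt z i - wt z j) * |Q i j|

/-- in the frame at `z` the matrix `Q` is `ε`-close to the identity outside the diagonal -/
def Flat (Q : Matrix (Fin 3) (Fin 3) ℝ) (ε : ℝ) (z : ℝ × ℝ) : Prop :=
  ∀ i j, i ≠ j → qq Q z i j ≤ ε

/-- the coordinates of `x` with respect to the eigenvectors -/
noncomputable def yc (α β : ℝ) (Q : Matrix (Fin 3) (Fin 3) ℝ) (x : Fin 3 → ℝ) : Fin 3 → ℝ :=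
  Q⁻¹.mulVec ((H α β).mulVec x)

/-- the cubic form `det [x, γ x, γ² x]` -/
def FF (γ : Matrix (Fin 3) (Fin 3) ℤ) (x : Fin 3 → ℤ) : ℤ :=
  (Matrix.of ![x, γ.mulVec x, γ.mulVec (γ.mulVec x)]).det

/-- Vandermonde product -/
def vand (ν : Fin 3 → ℝ) : ℝ := (ν 1 - ν 0) * (ν 2 - ν 0) * (ν 2 - ν 1)

/-- an eigenframe of `γ` -/
structure EF (α β E : ℝ) (γ : Matrix (Fin 3) (Fin 3) ℤ) (Q : Matrix (Fin 3) (Fin 3) ℝ)
    (ν : Fin 3 → ℝ) : Prop where
  eig : hg α β γ * Q = Q * Matrix.diagonal ν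
  one : ∀ j, Q j j = 1
  det1 : 1 / 2 ≤ |Q.det|
  det2 : |Q.det| ≤ 2
  bd : ∀ j, |ν j| ≤ 2 * E ^ 4
  irr : Irreducible (γ.charpoly.map (Int.castRingHom ℚ))

/-- an integer matrix `w` of determinant one with positive eigenvalues `ω` in the eigenframe -/
structure IsU (α β : ℝ) (Q : Matrix (Fin 3) (Fin 3) ℝ) (w : Matrix (Fin 3) (Fin 3) ℤ)
    (ω : Fin 3 → ℝ) : Prop where
  pos : ∀ m, 0 < ω m
  eig : hg α β w * Q = Q * Matrix.diagonal ω
  prod : ω 0 * ω 1 * ω 2 = 1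

end Pool.Agent.H6.LU
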