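import Pool.Agent.H6.LU.Form
import Pool.Agent.H6.LU.Cover
import Pool.Agent.H6.LW.Irr2

/-!
# Small products along a long edge (finitary form of the argument of Cassels and Swinnerton-Dyer)

Let `κ = exp (wt p i - wt p j) * Q i j`, so `|κ| = 1`, and `r = 6 C`. Write
`η m = exp (wt p m) * yc x m`, so that
`crd p x m = ∑ n, exp (wt p m - wt p n) * Q m n * η n`.

Start: by `exists_close` there is an integer vector `x₀` with `|η - η'| ≤ r` for the target
`η' i = A₁`, `η' j = - κ A₂`, `η' l = 0`, where `(A₁, A₂)` is `(2 r, 4 r)` if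
`log (ω i) > log (ω j)` and `(4 r, 2 r)` otherwise (if `f = η - η'` then the error of `crd` is
`f m + [m = i] κ f j + O(e |f|)`, so `|f| ≤ 4 (3 C / 2) = r` because `e ≤ 1 / 10`).
Then `η i > 0 > κ η j`, and `ρ = log |η i| - log |η j|` has `|ρ| ≤ log 5` and the sign opposite to
`θ = log (ω i) - log (ω j)` (or `ρ = 0`).

Move: `k = ⌊|ρ| / |θ|⌋₊`, `x = w ^ k x₀`, `yc x m = (ω m) ^ k * yc x₀ m`; let `p*` be the point with
`wt p* l = wt p l - k log (ω l)`, `wt p* i = wt p i + k log (ω l) / 2`, same for `j`. It lies on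
the segment from `p` to `p'`. In the frame at `p*` the coordinates `η* m` satisfy
`|η* i| = |η i| exp (k θ / 2)`, `|η* j| = |η j| exp (- k θ / 2)`, `η* l = η l`, all at most `12 r`,
and `|log |η* i| - log |η* j|| ≤ |θ| ≤ e`, with opposite signs of `η* i` and `κ η* j`. So
`|crd p* x i| ≤ 24 r e + 12 r e` and the other two coordinates are at most `36 r`.

End: the product of the three coordinates is less than `c`; `x 0 ≠ 0` because `36 r < exp B`; and
`|x 0| ≤ 36 r exp (p*.1 + p*.2) ≤ Qb`. This contradicts `prod_lower_int`.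
-/

open Real Matrix

namespace Pool.Agent.H6.LU

open Pool.Agent.H6.LW

lemma Edge_sum (f : Fin 3 → ℝ) {i j l : Fin 3} (hij : i ≠ j) (hil : i ≠ l) (hjl : j ≠ l) :
    ∑ n, f n = f i + f j + f l := by
  rw [Fin.sum_univ_three]
  fin_cases i <;> fin_cases j <;> fin_cases l <;>
    first
    | exact absurd rfl hij
    | exact absurd rfl hil
    | exact absurd rfl hjl
    | (simp only [Fin.zero_eta, Fin.mk_one, Fin.reduceFinMk] <;> ring)

lemma Edge_all {P : Fin 3 → Prop} {i j l : Fin 3} (hij : i ≠ j) (hil : i ≠ l) (hjl : j ≠ l)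
    (hi : P i) (hj : P j) (hl : P l) : ∀ m, P m := by
  intro m
  have key : ∀ i j l m : Fin 3, i ≠ j → i ≠ l → j ≠ l → m = i ∨ m = j ∨ m = l := by decide
  rcases key i j l m hij hil hjl with rfl | rfl | rfl
  · exact hi
  · exact hj
  · exact hl

lemma Edge_wt (z : ℝ × ℝ) {i j l : Fin 3} (hij : i ≠ j) (hil : i ≠ l) (hjl : j ≠ l) :
    wt z i + wt z j + wt z l = 0 := by
  rw [← Edge_sum (wt z) hij hil hjl, Fin.sum_univ_three]
  simp

/-- the affine interpolation of positions -/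
lemma Edge_seg (p p' : ℝ × ℝ) (s : ℝ) (m : Fin 3) :
    wt (p.1 + s * (p'.1 - p.1), p.2 + s * (p'.2 - p.2)) m = wt p m + s * (wt p' m - wt p m) := by
  fin_cases m
  · show wt (p.1 + s * (p'.1 - p.1), p.2 + s * (p'.2 - p.2)) 0 = wt p 0 + s * (wt p' 0 - wt p 0)
    simp only [wt_zero]
    ring
  · show wt (p.1 + s * (p'.1 - p.1), p.2 + s * (p'.2 - p.2)) 1 = wt p 1 + s * (wt p' 1 - wt p 1)
    simp only [wt_one]
  · show wt (p.1 + s * (p'.1 - p.1), p.2 + s * (p'.2 - p.2)) 2 = wt p 2 + s * (wt p' 2 - wt p 2)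
    simp only [wt_two]

lemma Edge_conv {x y s M : ℝ} (h0 : 0 ≤ s) (h1 : s ≤ 1) (hx : x ≤ M) (hy : y ≤ M) :
    x + s * (y - x) ≤ M := by nlinarith

lemma Edge_conv' {x y s M : ℝ} (h0 : 0 ≤ s) (h1 : s ≤ 1) (hx : M ≤ x) (hy : M ≤ y) :
    M ≤ x + s * (y - x) := by nlinarith

lemma Edge_crd {α β : ℝ} {Q : Matrix (Fin 3) (Fin 3) ℝ} (hQ : Q.det ≠ 0) (z : ℝ × ℝ)
    (x : Fin 3 → ℝ) (m : Fin 3) : crd α β z x m =
      ∑ n, (exp (wt z m - wt z n) * Q m n) * (exp (wt z n) * yc α β Q x n) := by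
  rw [crd, ← Q_mulVec_yc hQ, Matrix.mulVec, dotProduct, Finset.mul_sum]
  refine Finset.sum_congr rfl fun n _ => ?_
  rw [exp_sub]
  have := exp_ne_zero (wt z n)
  field_simp

lemma Edge_step {α β : ℝ} {Q : Matrix (Fin 3) (Fin 3) ℝ} {w : Matrix (Fin 3) (Fin 3) ℤ}
    {ω : Fin 3 → ℝ} (hQ : Q.det ≠ 0) (h : hg α β w * Q = Q * Matrix.diagonal ω)
    (v : Fin 3 → ℤ) (m : Fin 3) :
    yc α β Q (cv (w.mulVec v)) m = ω m * yc α β Q (cv v) m := by
  have hu : IsUnit Q.det := isUnit_iff_ne_zero.2 hQ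
  have e1 : (H α β).mulVec (cv (w.mulVec v)) = (hg α β w).mulVec ((H α β).mulVec (cv v)) := by
    rw [← rm_mulVec, Matrix.mulVec_mulVec, Matrix.mulVec_mulVec]
    unfold hg
    rw [Matrix.mul_assoc _ (H α β) (H α β), H_mul_H, Matrix.mul_one]
  have e2 : yc α β Q (cv (w.mulVec v)) = (Matrix.diagonal ω).mulVec (yc α β Q (cv v)) := by
    rw [yc, e1, ← Q_mulVec_yc hQ (cv v)]
    calc Q⁻¹.mulVec ((hg α β w).mulVec (Q.mulVec (yc α β Q (cv v)))) =
        (Q⁻¹ * (hg α β w * Q)).mulVec (yc α β Q (cv v)) := by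
          simp only [Matrix.mulVec_mulVec]
      _ = (Q⁻¹ * (Q * Matrix.diagonal ω)).mulVec (yc α β Q (cv v)) := by rw [h]
      _ = _ := by rw [← Matrix.mul_assoc, Matrix.nonsing_inv_mul _ hu, Matrix.one_mul]
  rw [e2, Matrix.mulVec_diagonal]

lemma Edge_pow {α β : ℝ} {Q : Matrix (Fin 3) (Fin 3) ℝ} {w : Matrix (Fin 3) (Fin 3) ℤ}
    {ω : Fin 3 → ℝ} (hQ : Q.det ≠ 0) (h : hg α β w * Q = Q * Matrix.diagonal ω)
    (v : Fin 3 → ℤ) (m : Fin 3) (k : ℕ) :
    yc α β Q (cv ((w ^ k).mulVec v)) m = ω m ^ k * yc α β Q (cv v) m := by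
  induction k with
  | zero => simp
  | succ k ih =>
    rw [pow_succ', ← Matrix.mulVec_mulVec, Edge_step hQ h, ih, pow_succ']
    ring

/-- the error of the start vector -/
lemma Edge_err {fi fj fl κ a b c d g t e : ℝ} (hκ : |κ| = 1) (ha : |a| ≤ e) (hb : |b| ≤ e)
    (hc : |c| ≤ e) (hd : |d| ≤ e) (hg : |g| ≤ e) (he : e ≤ 1 / 10) (ht : 0 ≤ t)
    (h1 : |fi + κ * fj + a * fl| ≤ t) (h2 : |fj + b * fi + c * fl| ≤ t)
    (h3 : |fl + d * fi + g * fj| ≤ t) : |fi| ≤ 4 * t ∧ |fj| ≤ 4 * t ∧ |fl| ≤ 4 * t := by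
  set F := max |fi| (max |fj| |fl|) with hF
  have hi : |fi| ≤ F := le_max_left _ _
  have hj : |fj| ≤ F := (le_max_left _ _).trans (le_max_right _ _)
  have hl : |fl| ≤ F := (le_max_right _ _).trans (le_max_right _ _)
  have hF0 : 0 ≤ F := (abs_nonneg _).trans hi
  have small : ∀ x y : ℝ, |x| ≤ e → |y| ≤ F → |x * y| ≤ F / 10 := by
    intro x y hx hy
    rw [abs_mul]
    calc |x| * |y| ≤ 1 / 10 * F := mul_le_mul (hx.trans he) hy (abs_nonneg _) (by norm_num)
      _ = F / 10 := by ring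
  have s1 := small a fl ha hl
  have s2 := small b fi hb hi
  have s3 := small c fl hc hl
  have s4 := small d fi hd hi
  have s5 := small g fj hg hj
  have tri : ∀ x y z : ℝ, |x| ≤ |x + y + z| + |y| + |z| := by
    intro x y z
    have : x = (x + y + z) - y - z := by ring
    calc |x| = |(x + y + z) - y - z| := by rw [← this]
      _ ≤ |(x + y + z) - y| + |z| := abs_sub _ _
      _ ≤ |x + y + z| + |y| + |z| := by linarith [abs_sub (x + y + z) y]
  have t2 := tri fj (b * fi) (c * fl)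
  have t3 := tri fl (d * fi) (g * fj)
  have t1 := tri fi (κ * fj) (a * fl)
  have hk : |κ * fj| = |fj| := by rw [abs_mul, hκ, one_mul]
  rw [hk] at t1
  have hFb : F ≤ 2 * t + 3 * (F / 10) := max_le (by linarith) (max_le (by linarith) (by linarith))
  refine ⟨?_, ?_, ?_⟩ <;> linarith

/-- balancing of the two coordinates -/
lemma Edge_bal {a b θ r : ℝ} (hr : 0 < r) (hθ : θ ≠ 0) (hθ1 : |θ| ≤ 1 / 10)
    (h1 : 0 < θ → (r ≤ a ∧ a ≤ 3 * r) ∧ (3 * r ≤ b ∧ b ≤ 5 * r))
    (h2 : θ < 0 → (3 * r ≤ a ∧ a ≤ 5 * r) ∧ (r ≤ b ∧ b ≤ 3 * r)) :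
    ∃ k : ℕ, (k : ℝ) * |θ| ≤ 2 ∧ a * exp (k * θ / 2) ≤ 6 * r ∧ b * exp (-(k * θ / 2)) ≤ 6 * r ∧
      |a * exp (k * θ / 2) - b * exp (-(k * θ / 2))| ≤ 12 * r * |θ| := by
  have hab : 0 < a ∧ 0 < b ∧ a ≤ 5 * r ∧ b ≤ 5 * r ∧ a ≤ 5 * b ∧ b ≤ 5 * a := by
    rcases lt_or_gt_of_ne hθ with h | h
    · obtain ⟨⟨u1, u2⟩, u3, u4⟩ := h2 h
      refine ⟨by linarith, by linarith, by linarith, by linarith, by linarith, by linarith⟩
    · obtain ⟨⟨u1, u2⟩, u3, u4⟩ := h1 h
      refine ⟨by linarith, by linarith, by linarith, by linarith, by linarith, by linarith⟩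
  obtain ⟨ha, hb, ha5, hb5, hab5, hba5⟩ := hab
  set ρ := log a - log b with hρ
  have hlog5 : log 5 ≤ 2 := by
    rw [log_le_iff_le_exp (by norm_num)]
    have h := Real.exp_one_gt_d9
    have e2 : exp 2 = exp 1 * exp 1 := by rw [← exp_add]; norm_num
    rw [e2]
    nlinarith
  have hρ2 : |ρ| ≤ 2 := by
    rw [abs_le]
    have e1 : log a ≤ log 5 + log b := by
      rw [← log_mul (by norm_num) hb.ne']
      exact log_le_log ha hab5
    have e2 : log b ≤ log 5 + log a := by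
      rw [← log_mul (by norm_num) ha.ne']
      exact log_le_log hb hba5
    constructor <;> linarith
  have hθpos : 0 < |θ| := abs_pos.2 hθ
  set k := ⌊|ρ| / |θ|⌋₊ with hk
  have k1 : (k : ℝ) * |θ| ≤ |ρ| := by
    rw [← le_div_iff₀ hθpos]
    exact Nat.floor_le (by positivity)
  have k2 : |ρ| < (k + 1) * |θ| := by
    rw [← div_lt_iff₀ hθpos]
    exact Nat.lt_floor_add_one _
  set u := ρ + k * θ with hu
  have huθ : |u| ≤ |θ| := by
    rcases lt_or_gt_of_ne hθ with h | h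
    · obtain ⟨⟨u1, u2⟩, u3, u4⟩ := h2 h
      have : 0 ≤ ρ := by
        rw [hρ, sub_nonneg]
        exact log_le_log hb (by linarith)
      rw [abs_of_nonneg this, abs_of_neg h] at k1 k2
      rw [abs_of_neg h, abs_le]
      constructor <;> linarith
    · obtain ⟨⟨u1, u2⟩, u3, u4⟩ := h1 h
      have : ρ ≤ 0 := by
        rw [hρ, sub_nonpos]
        exact log_le_log ha (by linarith)
      rw [abs_of_nonpos this, abs_of_pos h] at k1 k2
      rw [abs_of_pos h, abs_le]
      constructor <;> linarith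
  set A := a * exp (k * θ / 2) with hA
  set D := b * exp (-(k * θ / 2)) with hD
  have hA0 : 0 < A := by positivity
  have hD0 : 0 < D := by positivity
  have hprod : A * D = a * b := by
    have : exp (k * θ / 2) * exp (-(k * θ / 2)) = 1 := by rw [← exp_add]; simp
    rw [hA, hD]
    linear_combination a * b * this
  have hratio : A = D * exp u := by
    have e1 : exp u = a / b * exp (k * θ) := by
      rw [hu, exp_add, hρ, exp_sub, exp_log ha, exp_log hb]
    have e2 : exp (k * θ / 2) = exp (-(k * θ / 2)) * exp (k * θ) := by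
      rw [← exp_add]; congr 1; ring
    rw [hA, hD, e1, e2]
    field_simp
  have hexp : |exp u - 1| ≤ 2 * |u| := Real.abs_exp_sub_one_le (by linarith)
  have hexp' : |exp (-u) - 1| ≤ 2 * |u| := by
    have := Real.abs_exp_sub_one_le (x := -u) (by rw [abs_neg]; linarith)
    rwa [abs_neg] at this
  have hu1 : exp u ≤ 6 / 5 := by
    have := (abs_le.1 hexp).2
    linarith
  have hu2 : exp (-u) ≤ 6 / 5 := by
    have := (abs_le.1 hexp').2
    linarith
  have hab25 : a * b ≤ 25 * r ^ 2 := by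
    calc a * b ≤ (5 * r) * (5 * r) := mul_le_mul ha5 hb5 hb.le (by positivity)
      _ = 25 * r ^ 2 := by ring
  have hA6 : A ≤ 6 * r := by
    have e1 : A ^ 2 = a * b * exp u := by
      rw [← hprod]
      calc A ^ 2 = A * A := by ring
        _ = A * (D * exp u) := by rw [← hratio]
        _ = _ := by ring
    have e2 : A ^ 2 ≤ (6 * r) ^ 2 := by
      rw [e1]
      calc a * b * exp u ≤ 25 * r ^ 2 * (6 / 5) := mul_le_mul hab25 hu1 (exp_pos _).le (by positivity)
        _ ≤ (6 * r) ^ 2 := by nlinarith [sq_nonneg r]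
    exact le_of_sq_le_sq e2 (by positivity)
  have hD6 : D ≤ 6 * r := by
    have e0 : D = A * exp (-u) := by
      rw [hratio, mul_assoc, ← exp_add]; simp
    have e1 : D ^ 2 = a * b * exp (-u) := by
      rw [← hprod]
      calc D ^ 2 = D * D := by ring
        _ = D * (A * exp (-u)) := by rw [← e0]
        _ = _ := by ring
    have e2 : D ^ 2 ≤ (6 * r) ^ 2 := by
      rw [e1]
      calc a * b * exp (-u) ≤ 25 * r ^ 2 * (6 / 5) :=
            mul_le_mul hab25 hu2 (exp_pos _).le (by positivity)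
        _ ≤ (6 * r) ^ 2 := by nlinarith [sq_nonneg r]
    exact le_of_sq_le_sq e2 (by positivity)
  refine ⟨k, k1.trans hρ2, hA6, hD6, ?_⟩
  have e1 : A - D = D * (exp u - 1) := by rw [hratio]; ring
  rw [e1, abs_mul, abs_of_pos hD0]
  calc D * |exp u - 1| ≤ 6 * r * (2 * |θ|) := by
        refine mul_le_mul hD6 (hexp.trans ?_) (abs_nonneg _) (by positivity)
        linarith
    _ = 12 * r * |θ| := by ring

theorem edge_false {α β c C δ e B Qb G θ₀ : ℝ} {Q : Matrix (Fin 3) (Fin 3) ℝ}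
    {w : Matrix (Fin 3) (Fin 3) ℤ} {ω : Fin 3 → ℝ} (he : 0 < e) (he1 : e ≤ 1 / 10)
    (hC : 1 ≤ C) (hec : 20000000 * e * C ^ 3 < c) (hlow : LowUpTo α β c Qb)
    (hone : ∀ j, Q j j = 1) (hdet : Q.det ≠ 0)
    {i j l : Fin 3} (hij : i ≠ j) (hil : i ≠ l) (hjl : j ≠ l) {p p' : ℝ × ℝ}
    (hloc : Loc α β δ C p) (hp : qq Q p i j = 1) (hp' : qq Q p' i j = 1)
    (ho : ∀ m n, m ≠ n → ¬ (m = i ∧ n = j) → qq Q p m n ≤ e)
    (ho' : ∀ m n, m ≠ n → ¬ (m = i ∧ n = j) → qq Q p' m n ≤ e)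
    (hB : 300 * C < exp B) (hb : B ≤ p.1 ∧ B ≤ p.2) (hb' : B ≤ p'.1 ∧ B ≤ p'.2)
    (hQ : 300 * C * exp (p.1 + p.2) ≤ Qb) (hQ' : 300 * C * exp (p'.1 + p'.2) ≤ Qb)
    (hw : IsU α β Q w ω) (hl : 1 < ω l) (hG : log (ω l) ≤ G)
    (hθ₀ : 0 < θ₀) (hθ : θ₀ ≤ |log (ω i) - log (ω j)|) (hθe : |log (ω i) - log (ω j)| ≤ e)
    (hfar : wt p' l ≤ wt p l - 2 / θ₀ * G) : False := by
  -- the cross entry
  set κ := exp (wt p i - wt p j) * Q i j with hκ
  have hκ1 : |κ| = 1 := by
    rw [hκ, abs_mul, abs_of_pos (exp_pos _)]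
    exact hp
  have hκ2 : κ * κ = 1 := by rw [← abs_mul_abs_self, hκ1, one_mul]
  have hQij : 0 < |Q i j| := by
    rcases (abs_nonneg (Q i j)).eq_or_lt with h | h
    · unfold qq at hp
      rw [← h, mul_zero] at hp
      norm_num at hp
    · exact h
  -- the difference of the weights is the same at both ends
  have hdiff : wt p' i - wt p' j = wt p i - wt p j := by
    unfold qq at hp hp'
    have h1 : exp (wt p' i - wt p' j) * |Q i j| = exp (wt p i - wt p j) * |Q i j| := by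
      rw [hp, hp']
    exact exp_injective (mul_right_cancel₀ hQij.ne' h1)
  have sp := Edge_wt p hij hil hjl
  have sp' := Edge_wt p' hij hil hjl
  set lo : ℝ := log (ω l) with hlo
  have hlo0 : 0 < lo := log_pos hl
  have hG0 : 0 < G := lt_of_lt_of_le hlo0 hG
  set Δ : ℝ := wt p l - wt p' l with hΔ
  have hΔG : 2 / θ₀ * G ≤ Δ := by rw [hΔ]; linarith
  have hΔ0 : 0 < Δ := lt_of_lt_of_le (by positivity) hΔG
  have hwi : wt p' i - wt p i = Δ / 2 := by rw [hΔ]; linarith
  have hwj : wt p' j - wt p j = Δ / 2 := by rw [hΔ]; linarith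
  -- logarithms of the eigenvalues
  have hlogs : log (ω i) + log (ω j) + lo = 0 := by
    have h1 : log (ω 0 * ω 1 * ω 2) = 0 := by rw [hw.prod, log_one]
    rw [log_mul (mul_ne_zero (hw.pos 0).ne' (hw.pos 1).ne') (hw.pos 2).ne',
      log_mul (hw.pos 0).ne' (hw.pos 1).ne'] at h1
    have h2 := Edge_sum (fun m => log (ω m)) hij hil hjl
    rw [Fin.sum_univ_three] at h2
    linarith
  set θ := log (ω i) - log (ω j) with hθdef
  have hθne : θ ≠ 0 := by
    intro h0
    rw [h0, abs_zero] at hθ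
    linarith
  -- the start vector
  set r : ℝ := 6 * C with hr
  have hr0 : 0 < r := by rw [hr]; linarith
  obtain ⟨A₁, A₂, hA1, hA2⟩ : ∃ A₁ A₂ : ℝ, (0 < θ → A₁ = 2 * r ∧ A₂ = 4 * r) ∧
      (θ < 0 → A₁ = 4 * r ∧ A₂ = 2 * r) := by
    rcases lt_or_gt_of_ne hθne with h | h
    · exact ⟨4 * r, 2 * r, fun h' => absurd h' (not_lt.2 h.le), fun _ => ⟨rfl, rfl⟩⟩
    · exact ⟨2 * r, 4 * r, fun _ => ⟨rfl, rfl⟩, fun h' => absurd h' (not_lt.2 h.le)⟩
  set η' : Fin 3 → ℝ := fun m => if m = i then A₁ else if m = j then -κ * A₂ else 0 with hη'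
  have η'i : η' i = A₁ := by rw [hη']; simp
  have η'j : η' j = -κ * A₂ := by
    rw [hη']
    simp only [if_neg hij.symm, if_true]
  have η'l : η' l = 0 := by
    rw [hη']
    simp only [if_neg hil.symm, if_neg hjl.symm]
  obtain ⟨x₀, hx₀⟩ := exists_close hloc (by linarith : (0:ℝ) ≤ C)
    (fun m => ∑ n, (exp (wt p m - wt p n) * Q m n) * η' n)
  set η : Fin 3 → ℝ := fun n => exp (wt p n) * yc α β Q (cv x₀) n with hη
  have herr : ∀ m, |∑ n, (exp (wt p m - wt p n) * Q m n) * (η n - η' n)| ≤ 3 * C / 2 := by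
    intro m
    have h1 := hx₀ m
    rw [Edge_crd hdet, ← Finset.sum_sub_distrib] at h1
    have h2 : ∀ n, (exp (wt p m - wt p n) * Q m n) * (η n - η' n) =
        (exp (wt p m - wt p n) * Q m n) * (exp (wt p n) * yc α β Q (cv x₀) n) -
          (exp (wt p m - wt p n) * Q m n) * η' n := fun n => by rw [hη]; ring
    rw [Finset.sum_congr rfl fun n _ => h2 n]
    exact h1
  have hqabs : ∀ z m n, |exp (wt z m - wt z n) * Q m n| = qq Q z m n := fun z m n => by
    rw [abs_mul, abs_of_pos (exp_pos _), qq]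
  have hdiag : ∀ z m, exp (wt z m - wt z m) * Q m m = 1 := fun z m => by
    rw [hone, sub_self, exp_zero, mul_one]
  have e_i := herr i
  have e_j := herr j
  have e_l := herr l
  rw [Edge_sum _ hij hil hjl] at e_i e_j e_l
  rw [hdiag] at e_i e_j e_l
  obtain ⟨f1, f2, f3⟩ := Edge_err (fi := η i - η' i) (fj := η j - η' j) (fl := η l - η' l)
    (κ := κ) (a := exp (wt p i - wt p l) * Q i l) (b := exp (wt p j - wt p i) * Q j i)
    (c := exp (wt p j - wt p l) * Q j l) (d := exp (wt p l - wt p i) * Q l i)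
    (g := exp (wt p l - wt p j) * Q l j) (t := 3 * C / 2) (e := e) hκ1
    (by rw [hqabs]; exact ho i l hil (fun h => hjl h.2.symm))
    (by rw [hqabs]; exact ho j i hij.symm (fun h => hij h.1.symm))
    (by rw [hqabs]; exact ho j l hjl (fun h => hij h.1.symm))
    (by rw [hqabs]; exact ho l i hil.symm (fun h => hil h.1.symm))
    (by rw [hqabs]; exact ho l j hjl.symm (fun h => hil h.1.symm)) he1 (by positivity)
    (by convert e_i using 2; rw [hκ]; ring) (by convert e_j using 2; ring)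
    (by convert e_l using 2; ring)
  have h4t : 4 * (3 * C / 2) = r := by rw [hr]; ring
  rw [h4t] at f1 f2 f3
  rw [η'i] at f1
  rw [η'j] at f2
  rw [η'l, sub_zero] at f3
  obtain ⟨f1a, f1b⟩ := abs_le.1 f1
  have f2' : |κ * η j + A₂| ≤ r := by
    have : κ * η j + A₂ = κ * (η j - -κ * A₂) := by
      have : κ * (η j - -κ * A₂) = κ * η j + (κ * κ) * A₂ := by ring
      rw [this, hκ2, one_mul]
    rw [this, abs_mul, hκ1, one_mul]
    exact f2
  obtain ⟨f2a, f2b⟩ := abs_le.1 f2'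
  set a : ℝ := η i with ha_def
  set b : ℝ := -(κ * η j) with hb_def
  -- balance
  obtain ⟨k, hk1, hk2, hk3, hk4⟩ := Edge_bal (a := a) (b := b) (θ := θ) (r := r) hr0 hθne
    (hθe.trans he1)
    (fun h => by
      obtain ⟨h1, h2⟩ := hA1 h
      rw [h1] at f1a f1b
      rw [h2] at f2a f2b
      refine ⟨⟨by linarith, by linarith⟩, by linarith, by linarith⟩)
    (fun h => by
      obtain ⟨h1, h2⟩ := hA2 h
      rw [h1] at f1a f1b
      rw [h2] at f2a f2b
      refine ⟨⟨by linarith, by linarith⟩, by linarith, by linarith⟩)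
  have ha0 : 0 < a := by
    rcases lt_or_gt_of_ne hθne with h | h
    · rw [(hA2 h).1] at f1a; linarith
    · rw [(hA1 h).1] at f1a; linarith
  have hb0 : 0 < b := by
    rcases lt_or_gt_of_ne hθne with h | h
    · rw [(hA2 h).2] at f2b; linarith
    · rw [(hA1 h).2] at f2b; linarith
  -- the point
  set s : ℝ := k * lo / Δ with hs
  have hs0 : 0 ≤ s := by positivity
  have hklo : (k : ℝ) * lo ≤ Δ := by
    refine le_trans ?_ hΔG
    have h1 : (k : ℝ) ≤ 2 / θ₀ := by
      rw [le_div_iff₀ hθ₀]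
      exact (mul_le_mul_of_nonneg_left hθ (Nat.cast_nonneg k)).trans hk1
    exact mul_le_mul h1 hG hlo0.le (by positivity)
  have hs1 : s ≤ 1 := by rw [hs, div_le_one hΔ0]; exact hklo
  set z : ℝ × ℝ := (p.1 + s * (p'.1 - p.1), p.2 + s * (p'.2 - p.2)) with hz
  have hwz : ∀ m, wt z m = wt p m + s * (wt p' m - wt p m) := fun m => Edge_seg p p' s m
  have hzl : wt z l = wt p l - k * lo := by
    rw [hwz, hs, hΔ]
    have : wt p' l - wt p l = -Δ := by rw [hΔ]; ring
    rw [this, ← hΔ]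
    field_simp
    ring
  have hsΔ : s * Δ = k * lo := by rw [hs]; field_simp
  have hzi : wt z i = wt p i + k * lo / 2 := by
    rw [hwz, hwi, ← hsΔ]; ring
  have hzj : wt z j = wt p j + k * lo / 2 := by
    rw [hwz, hwj, ← hsΔ]; ring
  -- the vector
  set x : Fin 3 → ℤ := (w ^ k).mulVec x₀ with hx
  have hyc : ∀ m, yc α β Q (cv x) m = ω m ^ k * yc α β Q (cv x₀) m := fun m =>
    Edge_pow hdet hw.eig x₀ m k
  have hpow : ∀ m, ω m ^ k = exp (k * log (ω m)) := fun m => by
    rw [mul_comm, exp_mul, exp_log (hw.pos m), rpow_natCast]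
  have hηz : ∀ m, exp (wt z m) * yc α β Q (cv x) m =
      exp (wt z m - wt p m + k * log (ω m)) * η m := fun m => by
    rw [hyc, hpow, exp_add, exp_sub, hη]
    have := exp_ne_zero (wt p m)
    field_simp
  have z_i : exp (wt z i) * yc α β Q (cv x) i = a * exp (k * θ / 2) := by
    rw [hηz, mul_comm, ha_def]
    congr 2
    rw [hzi]
    have : θ = 2 * log (ω i) + lo := by rw [hθdef]; linarith
    rw [this]; ring
  have z_j : κ * (exp (wt z j) * yc α β Q (cv x) j) = -(b * exp (-(k * θ / 2))) := by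
    rw [hηz, hb_def]
    have : exp (wt z j - wt p j + k * log (ω j)) = exp (-(k * θ / 2)) := by
      congr 1
      rw [hzj]
      have : θ = -(2 * log (ω j) + lo) := by rw [hθdef]; linarith
      rw [this]; ring
    rw [this]; ring
  have z_l : exp (wt z l) * yc α β Q (cv x) l = η l := by
    rw [hηz]
    have : exp (wt z l - wt p l + k * log (ω l)) = 1 := by
      rw [exp_eq_one_iff, hzl, ← hlo]; ring
    rw [this, one_mul]
  have habs_j : |exp (wt z j) * yc α β Q (cv x) j| = b * exp (-(k * θ / 2)) := by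
    have h1 : |κ * (exp (wt z j) * yc α β Q (cv x) j)| = b * exp (-(k * θ / 2)) := by
      rw [z_j, abs_neg, abs_of_pos (by positivity)]
    rwa [abs_mul, hκ1, one_mul] at h1
  -- flatness at z
  have hqz : ∀ m n, m ≠ n → ¬ (m = i ∧ n = j) → qq Q z m n ≤ e := by
    intro m n hmn hne
    have h1 := ho m n hmn hne
    have h2 := ho' m n hmn hne
    unfold qq at h1 h2 ⊢
    rcases (abs_nonneg (Q m n)).eq_or_lt with h0 | h0
    · rw [← h0, mul_zero]; exact he.le
    · rw [← le_div_iff₀ h0] at h1 h2 ⊢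
      have hpos : 0 < e / |Q m n| := by positivity
      rw [← le_log_iff_exp_le hpos] at h1 h2 ⊢
      rw [hwz, hwz]
      have : wt p m + s * (wt p' m - wt p m) - (wt p n + s * (wt p' n - wt p n)) =
          (wt p m - wt p n) + s * ((wt p' m - wt p' n) - (wt p m - wt p n)) := by ring
      rw [this]
      exact Edge_conv hs0 hs1 h1 h2
  have hκz : exp (wt z i - wt z j) * Q i j = κ := by
    rw [hκ]
    congr 2
    rw [hzi, hzj]; ring
  -- the coordinates of x at z
  have hr_e : ∀ u v : ℝ, |u| ≤ e → |v| ≤ 6 * r → |u * v| ≤ 6 * r * e := fun u v hu hv => by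
    rw [abs_mul, mul_comm]
    exact mul_le_mul hv hu (abs_nonneg _) (by positivity)
  set Yi : ℝ := exp (wt z i) * yc α β Q (cv x) i with hYi
  set Yj : ℝ := exp (wt z j) * yc α β Q (cv x) j with hYj
  set Yl : ℝ := exp (wt z l) * yc α β Q (cv x) l with hYl
  have bi : |Yi| ≤ 6 * r := by
    rw [z_i, abs_of_pos (by positivity)]; exact hk2
  have bj : |Yj| ≤ 6 * r := by rw [habs_j]; exact hk3
  have bl : |Yl| ≤ r := by rw [z_l]; exact f3
  have bl6 : |Yl| ≤ 6 * r := by linarith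
  have q_il : |exp (wt z i - wt z l) * Q i l| ≤ e := by
    rw [hqabs]; exact hqz i l hil (fun h => hjl h.2.symm)
  have q_ji : |exp (wt z j - wt z i) * Q j i| ≤ e := by
    rw [hqabs]; exact hqz j i hij.symm (fun h => hij h.1.symm)
  have q_jl : |exp (wt z j - wt z l) * Q j l| ≤ e := by
    rw [hqabs]; exact hqz j l hjl (fun h => hij h.1.symm)
  have q_li : |exp (wt z l - wt z i) * Q l i| ≤ e := by
    rw [hqabs]; exact hqz l i hil.symm (fun h => hil h.1.symm)
  have q_lj : |exp (wt z l - wt z j) * Q l j| ≤ e := by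
    rw [hqabs]; exact hqz l j hjl.symm (fun h => hil h.1.symm)
  have c_i : |crd α β z (cv x) i| ≤ 13 * r * e := by
    rw [Edge_crd hdet, Edge_sum _ hij hil hjl, hdiag, one_mul, hκz, ← hYi, ← hYj, ← hYl]
    have h1 : |Yi + κ * Yj| ≤ 12 * r * e := by
      rw [z_i, z_j, ← sub_eq_add_neg]
      refine hk4.trans ?_
      exact mul_le_mul_of_nonneg_left hθe (by positivity)
    have h2 : |exp (wt z i - wt z l) * Q i l * Yl| ≤ r * e := by
      rw [abs_mul, mul_comm]
      exact mul_le_mul bl q_il (abs_nonneg _) hr0.le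
    calc |Yi + κ * Yj + exp (wt z i - wt z l) * Q i l * Yl| ≤
        |Yi + κ * Yj| + |exp (wt z i - wt z l) * Q i l * Yl| := abs_add_le _ _
      _ ≤ 13 * r * e := by linarith
  have hre : 6 * r * e ≤ r := by
    have h1 : 6 * r * e = r * (6 * e) := by ring
    rw [h1]
    exact mul_le_of_le_one_right hr0.le (by linarith only [he1])
  have hre' : 13 * r * e ≤ 8 * r := by
    have h1 : 13 * r * e = r * (13 * e) := by ring
    rw [h1, mul_comm 8 r]
    exact mul_le_mul_of_nonneg_left (by linarith only [he1]) hr0.le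
  have c_j : |crd α β z (cv x) j| ≤ 8 * r := by
    rw [Edge_crd hdet, Edge_sum _ hij hil hjl, hdiag, one_mul, ← hYi, ← hYj, ← hYl]
    have h1 := hr_e _ _ q_ji bi
    have h2 := hr_e _ _ q_jl bl6
    refine (abs_add_three _ _ _).trans ?_
    linarith
  have c_l : |crd α β z (cv x) l| ≤ 8 * r := by
    rw [Edge_crd hdet, Edge_sum _ hij hil hjl, hdiag, one_mul, ← hYi, ← hYj, ← hYl]
    have h1 := hr_e _ _ q_li bi
    have h2 := hr_e _ _ q_lj bj
    refine (abs_add_three _ _ _).trans ?_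
    linarith
  have c_all : ∀ m, |crd α β z (cv x) m| ≤ 8 * r :=
    Edge_all hij hil hjl (c_i.trans hre') c_j c_l
  -- bounds for the position
  have hz1 : B ≤ z.1 := Edge_conv' hs0 hs1 hb.1 hb'.1
  have hz2 : B ≤ z.2 := Edge_conv' hs0 hs1 hb.2 hb'.2
  have hQb0 : 0 < Qb := lt_of_lt_of_le (by positivity) hQ
  have hzQ : 300 * C * exp (z.1 + z.2) ≤ Qb := by
    have h300 : 0 < 300 * C := by linarith
    rw [mul_comm, ← le_div_iff₀ h300] at hQ hQ' ⊢
    have hpos : 0 < Qb / (300 * C) := by positivity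
    rw [← le_log_iff_exp_le hpos] at hQ hQ' ⊢
    have : z.1 + z.2 = (p.1 + p.2) + s * ((p'.1 + p'.2) - (p.1 + p.2)) := by rw [hz]; ring
    rw [this]
    exact Edge_conv hs0 hs1 hQ hQ'
  -- the first coordinate is not zero
  have hbig : ∀ (t : ℝ) (n : ℤ), B ≤ t → exp t * |(n : ℝ)| ≤ 8 * r → n = 0 := by
    intro t n ht hn
    by_contra h0
    have h1 : (1 : ℝ) ≤ |(n : ℝ)| := by
      rw [← Int.cast_abs]
      exact_mod_cast Int.one_le_abs h0
    have h2 : exp B ≤ exp t := exp_le_exp.2 ht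
    have h3 : exp t * 1 ≤ exp t * |(n : ℝ)| := mul_le_mul_of_nonneg_left h1 (exp_pos _).le
    rw [hr] at hn
    linarith
  have hx0 : x 0 ≠ 0 := by
    intro h0
    have hc0 : cv x 0 = 0 := by simp [cv, h0]
    have h1 : x 1 = 0 := by
      refine hbig z.1 (x 1) hz1 ?_
      have := c_all 1
      rw [crd_one, hc0, abs_mul, abs_of_pos (exp_pos _)] at this
      have e1 : |0 * α - cv x 1| = |((x 1 : ℤ) : ℝ)| := by simp [cv]
      rwa [e1] at this
    have h2 : x 2 = 0 := by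
      refine hbig z.2 (x 2) hz2 ?_
      have := c_all 2
      rw [crd_two, hc0, abs_mul, abs_of_pos (exp_pos _)] at this
      have e1 : |0 * β - cv x 2| = |((x 2 : ℤ) : ℝ)| := by simp [cv]
      rwa [e1] at this
    have hxz : cv x = 0 := by
      ext m
      fin_cases m
      · simpa [cv] using h0
      · simpa [cv] using h1
      · simpa [cv] using h2
    have : Yi = 0 := by
      rw [hYi, yc, hxz, Matrix.mulVec_zero, Matrix.mulVec_zero]
      simp
    rw [z_i] at this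
    have : 0 < a * exp (k * θ / 2) := by positivity
    linarith
  have hxQ : |((x 0 : ℤ) : ℝ)| ≤ Qb := by
    have := c_all 0
    rw [crd_zero, abs_mul, abs_of_pos (exp_pos _), exp_neg, inv_mul_le_iff₀ (exp_pos _)] at this
    have e1 : cv x 0 = ((x 0 : ℤ) : ℝ) := rfl
    rw [e1] at this
    refine this.trans (le_trans ?_ hzQ)
    rw [hr, mul_comm]
    exact mul_le_mul_of_nonneg_right (by linarith) (exp_pos _).le
  have hlow' := prod_lower_int hlow x hx0 hxQ
  rw [← prod_crd α β z, abs_prod_cyc (crd α β z (cv x)) i] at hlow'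
  -- the product is small
  have hprod : |crd α β z (cv x) i| * |crd α β z (cv x) (i + 1)| * |crd α β z (cv x) (i + 2)| ≤
      (13 * r * e) * (8 * r) * (8 * r) :=
    mul_le_mul (mul_le_mul c_i (c_all _) (abs_nonneg _) (by positivity)) (c_all _) (abs_nonneg _)
      (by positivity)
  have hfinal : (13 * r * e) * (8 * r) * (8 * r) = 179712 * e * C ^ 3 := by rw [hr]; ring
  rw [hfinal] at hprod
  have h0 : 0 ≤ e * C ^ 3 := by positivity
  have h1 : 179712 * e * C ^ 3 = 179712 * (e * C ^ 3) := by ring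
  have h2 : 20000000 * e * C ^ 3 = 20000000 * (e * C ^ 3) := by ring
  rw [h1] at hprod
  rw [h2] at hec
  linarith only [h0, hprod, hec, hlow']

end Pool.Agent.H6.LU
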