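import Pool.Agent.H6.LU.Defs
import Pool.Agent.H6.LW.Approx

/-!
# Existence of eigenframes

`fr α β z (rm γ)` is `hg α β γ` conjugated by a diagonal matrix; its diagonal entries do not depend
on `z`. For each `j` there is an eigenvalue `ν j` within `E⁻²⁰` of the `j`-th diagonal entry
(`exists_root_near` of `LW/Approx.lean` treats `j = 0`: permute the indices; take the numbers from
`near_approx`), and the corresponding eigenvector `y` satisfies `|y i| ≤ κ |y j|`, `i ≠ j`, in every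
frame where the off-diagonal entries are small (proof of `eigenvector_near`). Normalise to
`y j = 1`. The bounds of the determinant follow from `Flat Q (1024 / E) z`.
-/

open Real Matrix

namespace Pool.Agent.H6.LU

open Pool.Agent.H6.LW

/-- an eigenvector of a nearly diagonal matrix is concentrated on the corresponding axis -/
lemma vec_k4 {Γ : Matrix (Fin 3) (Fin 3) ℝ} {η σ τ ν : ℝ} (j : Fin 3) (hη : 0 ≤ η)
    (hτσ : τ ≤ σ / 2) (hoff : ∀ i k, i ≠ k → |Γ i k| ≤ η)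
    (hsep : ∀ i, i ≠ j → σ ≤ |Γ j j - Γ i i|) (hν : |ν - Γ j j| ≤ τ)
    (hησ : η ≤ σ / 4) {y : Fin 3 → ℝ} (hy : Γ.mulVec y = ν • y) :
    ∀ i, i ≠ j → σ / 4 * |y i| ≤ η * |y j| := by
  have n1 : j + 1 ≠ j := by fin_cases j <;> decide
  have n2 : j + 2 ≠ j := by fin_cases j <;> decide
  have n12 : j + 1 ≠ j + 2 := by fin_cases j <;> decide
  obtain ⟨a, ha⟩ : ∃ a, a = j + 1 := ⟨_, rfl⟩
  obtain ⟨b, hb⟩ : ∃ b, b = j + 2 := ⟨_, rfl⟩
  have haj : a ≠ j := ha ▸ n1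
  have hbj : b ≠ j := hb ▸ n2
  have hab : a ≠ b := by rw [ha, hb]; exact n12
  have hrow : ∀ i, Γ i j * y j + Γ i a * y a + Γ i b * y b = ν * y i := by
    intro i
    have := congrFun hy i
    rw [Matrix.mulVec, dotProduct, sum_cyc _ j, ← ha, ← hb, Pi.smul_apply, smul_eq_mul] at this
    exact this
  have dd : ∀ i, i ≠ j → σ / 2 ≤ |Γ i i - ν| := by
    intro i hi
    have h1 : |Γ j j - Γ i i| ≤ |Γ i i - ν| + |ν - Γ j j| := by
      rw [← abs_neg (Γ i i - ν), ← abs_neg (ν - Γ j j)]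
      have := abs_add_le (-(Γ i i - ν)) (-(ν - Γ j j))
      rwa [show -(Γ i i - ν) + -(ν - Γ j j) = Γ j j - Γ i i by ring] at this
    have := hsep i hi
    linarith
  obtain ⟨m, hm⟩ : ∃ m, m = max |y a| |y b| := ⟨_, rfl⟩
  have hma : |y a| ≤ m := by rw [hm]; exact le_max_left _ _
  have hmb : |y b| ≤ m := by rw [hm]; exact le_max_right _ _
  have k1 : σ / 2 * |y a| ≤ η * |y j| + η * m := by
    have e : (Γ a a - ν) * y a = -(Γ a j * y j) - Γ a b * y b := by linarith [hrow a]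
    calc σ / 2 * |y a| ≤ |Γ a a - ν| * |y a| :=
          mul_le_mul_of_nonneg_right (dd a haj) (abs_nonneg _)
      _ = |-(Γ a j * y j) - Γ a b * y b| := by rw [← abs_mul, e]
      _ ≤ |-(Γ a j * y j)| + |Γ a b * y b| := abs_sub _ _
      _ ≤ η * |y j| + η * m := by
          rw [abs_neg, abs_mul, abs_mul]
          exact add_le_add (mul_le_mul_of_nonneg_right (hoff a j haj) (abs_nonneg _))
            (mul_le_mul (hoff a b hab) hmb (abs_nonneg _) hη)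
  have k2 : σ / 2 * |y b| ≤ η * |y j| + η * m := by
    have e : (Γ b b - ν) * y b = -(Γ b j * y j) - Γ b a * y a := by linarith [hrow b]
    calc σ / 2 * |y b| ≤ |Γ b b - ν| * |y b| :=
          mul_le_mul_of_nonneg_right (dd b hbj) (abs_nonneg _)
      _ = |-(Γ b j * y j) - Γ b a * y a| := by rw [← abs_mul, e]
      _ ≤ |-(Γ b j * y j)| + |Γ b a * y a| := abs_sub _ _
      _ ≤ η * |y j| + η * m := by
          rw [abs_neg, abs_mul, abs_mul]
          exact add_le_add (mul_le_mul_of_nonneg_right (hoff b j hbj) (abs_nonneg _))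
            (mul_le_mul (hoff b a hab.symm) hma (abs_nonneg _) hη)
  have k3 : σ / 2 * m ≤ η * |y j| + η * m := by
    rcases max_choice |y a| |y b| with h | h
    · rw [← hm] at h; rw [h] at k1 ⊢; exact k1
    · rw [← hm] at h; rw [h] at k2 ⊢; exact k2
  have hm0 : 0 ≤ m := (abs_nonneg _).trans hma
  have k4 : σ / 4 * m ≤ η * |y j| := by
    have : η * m ≤ σ / 4 * m := mul_le_mul_of_nonneg_right hησ hm0
    linarith
  have hσ4 : 0 ≤ σ / 4 := hη.trans hησ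
  have hfin : ∀ i, i = j ∨ i = a ∨ i = b := by
    intro i
    rw [ha, hb]
    fin_cases j <;> fin_cases i <;> decide
  intro i hi
  rcases hfin i with h | h | h
  · exact absurd h hi
  · rw [h]
    exact (mul_le_mul_of_nonneg_left hma hσ4).trans k4
  · rw [h]
    exact (mul_le_mul_of_nonneg_left hmb hσ4).trans k4

lemma vec_near {Γ : Matrix (Fin 3) (Fin 3) ℝ} {η σ τ ν κ : ℝ} (j : Fin 3) (hη : 0 ≤ η)
    (hτσ : τ ≤ σ / 2) (hoff : ∀ i k, i ≠ k → |Γ i k| ≤ η)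
    (hsep : ∀ i, i ≠ j → σ ≤ |Γ j j - Γ i i|) (hν : |ν - Γ j j| ≤ τ)
    (hησ : η ≤ σ / 4) (hσ : 0 < σ) (hκ : 4 * η ≤ κ * σ) {y : Fin 3 → ℝ}
    (hy : Γ.mulVec y = ν • y) (hyj : y j = 1) : ∀ i, i ≠ j → |y i| ≤ κ := by
  intro i hi
  have h := vec_k4 j hη hτσ hoff hsep hν hησ hy i hi
  rw [hyj, abs_one, mul_one] at h
  have h2 : σ * |y i| ≤ σ * κ := by linarith
  exact le_of_mul_le_mul_left h2 hσ

/-- root and eigenvector near the `j`-th axis -/
lemma exists_eigvec {Γ : Matrix (Fin 3) (Fin 3) ℝ} {η D σ τ : ℝ} (j : Fin 3) (hη : 0 ≤ η)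
    (hη1 : η ≤ 1) (hD : 1 ≤ D) (hτ : 0 < τ) (hτ1 : τ ≤ 1) (hτσ : τ ≤ σ / 2)
    (hoff : ∀ i k, i ≠ k → |Γ i k| ≤ η) (hdiag : ∀ i, |Γ i i| ≤ D)
    (hsep : ∀ i k, i ≠ k → σ ≤ |Γ i i - Γ k k|) (hησ : η ≤ σ / 4)
    (hbig : 11 * D * η ^ 2 < τ * (σ / 2) ^ 2) :
    ∃ (ν : ℝ) (y : Fin 3 → ℝ), |ν - Γ j j| ≤ τ ∧ y j = 1 ∧ Γ.mulVec y = ν • y := by
  obtain ⟨e, he⟩ : ∃ e : Fin 3 ≃ Fin 3, e = Equiv.addRight j := ⟨_, rfl⟩
  have he0 : e 0 = j := by rw [he]; simp
  have hinj : ∀ i k, i ≠ k → e i ≠ e k := fun i k h h' => h (e.injective h')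
  obtain ⟨ν, hν, hdet⟩ := exists_root_near (Γ := Γ.submatrix e e) hη hη1 hD hτ hτ1 hτσ
    (fun i k h => hoff _ _ (hinj i k h)) (fun i => hdiag _)
    (hsep _ _ (hinj 0 1 (by decide))) (hsep _ _ (hinj 0 2 (by decide))) hbig
  rw [Matrix.submatrix_apply, he0] at hν
  have hsub : Γ.submatrix e e - ν • (1 : Matrix (Fin 3) (Fin 3) ℝ) =
      (Γ - ν • (1 : Matrix (Fin 3) (Fin 3) ℝ)).submatrix e e := by
    ext i k
    simp only [Matrix.sub_apply, Matrix.submatrix_apply, Matrix.smul_apply, Matrix.one_apply,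
      e.injective.eq_iff]
  rw [hsub, Matrix.det_submatrix_equiv_self] at hdet
  obtain ⟨y, hy0, hy⟩ := Matrix.exists_mulVec_eq_zero_iff.2 hdet
  have hyΓ : Γ.mulVec y = ν • y := by
    rw [Matrix.sub_mulVec, Matrix.smul_mulVec, Matrix.one_mulVec, sub_eq_zero] at hy
    exact hy
  have hσ : 0 < σ := by linarith
  have hk := vec_k4 j hη hτσ hoff (fun i hi => hsep j i hi.symm) hν hησ hyΓ
  have hyj : y j ≠ 0 := by
    intro h0
    apply hy0
    ext i
    by_cases hi : i = j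
    · rw [hi]; exact h0
    · have h1 := hk i hi
      rw [h0, abs_zero, mul_zero] at h1
      have h2 : |y i| ≤ 0 := by
        by_contra hc
        push Not at hc
        have : 0 < σ / 4 * |y i| := by positivity
        linarith
      exact abs_nonpos_iff.1 h2
  refine ⟨ν, (y j)⁻¹ • y, hν, ?_, ?_⟩
  · rw [Pi.smul_apply, smul_eq_mul, inv_mul_cancel₀ hyj]
  · rw [Matrix.mulVec_smul, hyΓ, smul_comm]

lemma fr_hg (α β : ℝ) (z : ℝ × ℝ) (γ : Matrix (Fin 3) (Fin 3) ℤ) (i k : Fin 3) :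
    fr α β z (rm γ) i k = exp (wt z i - wt z k) * hg α β γ i k := rfl

/-- frame version of an eigenvector of `hg` -/
lemma frame_vec {α β ν : ℝ} {γ : Matrix (Fin 3) (Fin 3) ℤ} (z : ℝ × ℝ) (j : Fin 3)
    {q : Fin 3 → ℝ} (h : ∀ i, ∑ k, hg α β γ i k * q k = ν * q i) :
    (fr α β z (rm γ)).mulVec (fun i => exp (wt z i - wt z j) * q i) =
      ν • (fun i => exp (wt z i - wt z j) * q i) := by
  ext i
  rw [Matrix.mulVec, dotProduct, Pi.smul_apply, smul_eq_mul]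
  have h1 : ∀ k, fr α β z (rm γ) i k * (exp (wt z k - wt z j) * q k) =
      exp (wt z i - wt z j) * (hg α β γ i k * q k) := by
    intro k
    rw [fr_hg]
    have : exp (wt z i - wt z j) = exp (wt z i - wt z k) * exp (wt z k - wt z j) := by
      rw [← exp_add]; congr 1; ring
    rw [this]; ring
  rw [Finset.sum_congr rfl fun k _ => h1 k, ← Finset.mul_sum, h i]
  ring

lemma vec_unframe {α β ν : ℝ} {γ : Matrix (Fin 3) (Fin 3) ℤ} (z : ℝ × ℝ) (j : Fin 3)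
    {y : Fin 3 → ℝ} (h : (fr α β z (rm γ)).mulVec y = ν • y) (i : Fin 3) :
    ∑ k, hg α β γ i k * (exp (wt z j - wt z k) * y k) = ν * (exp (wt z j - wt z i) * y i) := by
  have h1 := congrFun h i
  rw [Matrix.mulVec, dotProduct, Pi.smul_apply, smul_eq_mul] at h1
  have h2 : ∀ k, hg α β γ i k * (exp (wt z j - wt z k) * y k) =
      exp (wt z j - wt z i) * (fr α β z (rm γ) i k * y k) := by
    intro k
    rw [fr_hg]
    have : exp (wt z j - wt z k) = exp (wt z j - wt z i) * exp (wt z i - wt z k) := by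
      rw [← exp_add]; congr 1; ring
    rw [this]; ring
  rw [Finset.sum_congr rfl fun k _ => h2 k, ← Finset.mul_sum, h1]
  ring

lemma qq_pair (Q : Matrix (Fin 3) (Fin 3) ℝ) (z : ℝ × ℝ) (i j : Fin 3) :
    |Q i j * Q j i| = qq Q z i j * qq Q z j i := by
  unfold qq
  have : exp (wt z i - wt z j) * exp (wt z j - wt z i) = 1 := by
    rw [← exp_add]; simp
  rw [abs_mul]
  linear_combination (-(|Q i j| * |Q j i|)) * this

lemma qq_triple (Q : Matrix (Fin 3) (Fin 3) ℝ) (z : ℝ × ℝ) (i j k : Fin 3) :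
    |Q i j * Q j k * Q k i| = qq Q z i j * qq Q z j k * qq Q z k i := by
  unfold qq
  have : exp (wt z i - wt z j) * exp (wt z j - wt z k) * exp (wt z k - wt z i) = 1 := by
    rw [← exp_add, ← exp_add]; simp
  rw [abs_mul, abs_mul]
  linear_combination (-(|Q i j| * |Q j k| * |Q k i|)) * this

lemma det_flat {Q : Matrix (Fin 3) (Fin 3) ℝ} {z : ℝ × ℝ} {ε : ℝ} (h1 : ∀ j, Q j j = 1)
    (hε0 : 0 ≤ ε) (hε : ε ≤ 1 / 50) (hf : Flat Q ε z) : 1 / 2 ≤ |Q.det| ∧ |Q.det| ≤ 2 := by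
  have q0 : ∀ i j, 0 ≤ qq Q z i j := fun i j => mul_nonneg (exp_pos _).le (abs_nonneg _)
  have p2 : ∀ i j, i ≠ j → |Q i j * Q j i| ≤ 1 / 50 := by
    intro i j hij
    rw [qq_pair Q z]
    calc qq Q z i j * qq Q z j i ≤ ε * ε :=
          mul_le_mul (hf i j hij) (hf j i hij.symm) (q0 _ _) hε0
      _ ≤ 1 / 50 := by nlinarith
  have p3 : ∀ i j k, i ≠ j → j ≠ k → k ≠ i → |Q i j * Q j k * Q k i| ≤ 1 / 50 := by
    intro i j k hij hjk hki
    rw [qq_triple Q z]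
    calc qq Q z i j * qq Q z j k * qq Q z k i ≤ ε * ε * ε :=
          mul_le_mul (mul_le_mul (hf i j hij) (hf j k hjk) (q0 _ _) hε0) (hf k i hki) (q0 _ _)
            (by positivity)
      _ ≤ 1 / 50 := by nlinarith [mul_nonneg hε0 hε0]
  have e : Q.det = 1 - Q 1 2 * Q 2 1 - Q 0 1 * Q 1 0 + Q 0 1 * Q 1 2 * Q 2 0 +
      Q 0 2 * Q 2 1 * Q 1 0 - Q 0 2 * Q 2 0 := by
    rw [Matrix.det_fin_three, h1, h1, h1]
    ring
  have a1 := p2 1 2 (by decide)
  have a2 := p2 0 1 (by decide)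
  have a3 := p2 0 2 (by decide)
  have a4 := p3 0 1 2 (by decide) (by decide) (by decide)
  have a5 := p3 0 2 1 (by decide) (by decide) (by decide)
  rw [abs_le] at a1 a2 a3 a4 a5
  have hlow : 1 / 2 ≤ Q.det := by
    rw [e]; linarith [a1.1, a1.2, a2.1, a2.2, a3.1, a3.2, a4.1, a4.2, a5.1, a5.2]
  have hup : Q.det ≤ 2 := by
    rw [e]; linarith [a1.1, a1.2, a2.1, a2.2, a3.1, a3.2, a4.1, a4.2, a5.1, a5.2]
  rw [abs_of_nonneg (by linarith)]
  exact ⟨hlow, hup⟩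

theorem exists_eframe {α β E : ℝ} {γ : Matrix (Fin 3) (Fin 3) ℤ} {z z' : ℝ × ℝ}
    (hE : 100000 ≤ E) (hnear : NearRet α β ((E ^ 21)⁻¹) (E ^ 4) z γ)
    (hoff' : ∀ i j, i ≠ j → |fr α β z' (rm γ) i j| ≤ 32 / E ^ 9)
    (hirr : Irreducible (γ.charpoly.map (Int.castRingHom ℚ))) :
    ∃ (Q : Matrix (Fin 3) (Fin 3) ℝ) (ν : Fin 3 → ℝ), EF α β E γ Q ν ∧
      Flat Q (1024 / E) z ∧ Flat Q (1024 / E) z' := by
  have hE1000 : 1000 ≤ E := by linarith
  have hE0 : 0 < E := by linarith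
  have hE1 : 1 ≤ E := by linarith
  have hη0 : 0 ≤ (E ^ 21)⁻¹ := by positivity
  have hη1 : (E ^ 21)⁻¹ ≤ 1 := inv_le_one_of_one_le₀ (one_le_pow₀ hE1)
  have hD1 : 1 ≤ E ^ 4 := one_le_pow₀ hE1
  have hsep := hnear.sep hη0 hD1 hη1 (small_sep hE1000)
  obtain ⟨σ, hσ⟩ : ∃ σ, σ = 1 / (8 * (E ^ 4) ^ 2) := ⟨_, rfl⟩
  rw [← hσ] at hsep
  have hσ0 : 0 < σ := by rw [hσ]; positivity
  obtain ⟨τ, hτ⟩ : ∃ τ, τ = (E ^ 20)⁻¹ := ⟨_, rfl⟩
  have hτ0 : 0 < τ := by rw [hτ]; positivity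
  have hτ1 : τ ≤ 1 := by rw [hτ]; exact inv_le_one_of_one_le₀ (one_le_pow₀ hE1)
  have hτσ : τ ≤ σ / 2 := by
    rw [hτ, hσ, div_div, inv_eq_one_div]
    apply one_div_le_one_div_of_le (by positivity)
    calc 8 * (E ^ 4) ^ 2 * 2 = 16 * E ^ 8 := by ring
      _ ≤ E * E ^ 8 := mul_le_mul_of_nonneg_right (by linarith) (by positivity)
      _ = E ^ 9 := by ring
      _ ≤ E ^ 20 := pow_le_pow_right₀ hE1 (by norm_num)
  have hbig : 11 * E ^ 4 * ((E ^ 21)⁻¹) ^ 2 < τ * (σ / 2) ^ 2 := by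
    have e1 : 11 * E ^ 4 * ((E ^ 21)⁻¹) ^ 2 = 11 / E ^ 38 := by field_simp
    have e2 : τ * (σ / 2) ^ 2 = 1 / (256 * E ^ 36) := by
      rw [hτ, hσ]; field_simp; norm_num
    rw [e1, e2, div_lt_div_iff₀ (by positivity) (by positivity)]
    have h4 : 2816 < E ^ 2 := by nlinarith
    calc 11 * (256 * E ^ 36) = 2816 * E ^ 36 := by ring
      _ < E ^ 2 * E ^ 36 := mul_lt_mul_of_pos_right h4 (by positivity)
      _ = 1 * E ^ 38 := by ring
  have hησ : (E ^ 21)⁻¹ ≤ σ / 4 := by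
    rw [hσ, div_div, inv_eq_one_div]
    apply one_div_le_one_div_of_le (by positivity)
    calc 8 * (E ^ 4) ^ 2 * 4 = 32 * E ^ 8 := by ring
      _ ≤ E * E ^ 8 := mul_le_mul_of_nonneg_right (by linarith) (by positivity)
      _ = E ^ 9 := by ring
      _ ≤ E ^ 21 := pow_le_pow_right₀ hE1 (by norm_num)
  have hκ : 4 * (E ^ 21)⁻¹ ≤ 1024 / E * σ := by
    rw [hσ]
    have e1 : 1024 / E * (1 / (8 * (E ^ 4) ^ 2)) = 128 / E ^ 9 := by
      field_simp; norm_num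
    rw [e1, ← div_eq_mul_inv, div_le_div_iff₀ (by positivity) (by positivity)]
    have h1 : E ^ 9 ≤ E ^ 21 := pow_le_pow_right₀ hE1 (by norm_num)
    nlinarith [pow_pos hE0 21]
  have hη0' : 0 ≤ 32 / E ^ 9 := by positivity
  have hησ' : 32 / E ^ 9 ≤ σ / 4 := by
    rw [hσ, div_div, div_le_div_iff₀ (by positivity) (by positivity)]
    calc 32 * (8 * (E ^ 4) ^ 2 * 4) = 1024 * E ^ 8 := by ring
      _ ≤ E * E ^ 8 := mul_le_mul_of_nonneg_right (by linarith) (by positivity)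
      _ = 1 * E ^ 9 := by ring
  have hκ' : 4 * (32 / E ^ 9) ≤ 1024 / E * σ := by
    rw [hσ]
    have e1 : 1024 / E * (1 / (8 * (E ^ 4) ^ 2)) = 4 * (32 / E ^ 9) := by
      field_simp; norm_num
    rw [e1]
  have hex := fun j => exists_eigvec j hη0 hη1 hD1 hτ0 hτ1 hτσ hnear.off hnear.diag hsep hησ hbig
  choose ν y hν hyj hy using hex
  obtain ⟨Q, hQ⟩ : ∃ Q : Matrix (Fin 3) (Fin 3) ℝ,
    ∀ i j, Q i j = exp (wt z j - wt z i) * y j i :=
    ⟨Matrix.of fun i j => exp (wt z j - wt z i) * y j i, fun _ _ => rfl⟩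
  have hQ1 : ∀ j, Q j j = 1 := by
    intro j
    rw [hQ, sub_self, exp_zero, one_mul, hyj]
  have hcol : ∀ j i, ∑ k, hg α β γ i k * Q k j = ν j * Q i j := by
    intro j i
    have h1 := vec_unframe z j (hy j) i
    rw [hQ]
    rw [← h1]
    refine Finset.sum_congr rfl fun k _ => ?_
    rw [hQ]
  have hflat : Flat Q (1024 / E) z := by
    intro i j hij
    have h1 := vec_near j hη0 hτσ hnear.off (fun i hi => hsep j i hi.symm) (hν j) hησ hσ0 hκ
      (hy j) (hyj j) i hij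
    unfold qq
    rw [hQ, abs_mul, abs_of_pos (exp_pos _), ← mul_assoc, ← exp_add]
    rw [show wt z i - wt z j + (wt z j - wt z i) = 0 by ring, exp_zero, one_mul]
    exact h1
  have hflat' : Flat Q (1024 / E) z' := by
    intro i j hij
    have h1 := frame_vec z' j (hcol j)
    have hd : ∀ i, fr α β z' (rm γ) i i = fr α β z (rm γ) i i := by
      intro i
      rw [fr_diag, fr_diag]
    have h2 := vec_near (κ := 1024 / E) j hη0' hτσ hoff'
      (fun i hi => by rw [hd, hd]; exact hsep j i hi.symm) (by rw [hd]; exact hν j) hησ' hσ0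
      hκ' h1 (by simp [hQ1]) i hij
    rw [abs_mul, abs_of_pos (exp_pos _)] at h2
    exact h2
  obtain ⟨d1, d2⟩ := det_flat hQ1 (by positivity) (by
    rw [div_le_div_iff₀ hE0 (by norm_num)]; linarith) hflat
  refine ⟨Q, ν, ⟨?_, hQ1, d1, d2, ?_, hirr⟩, hflat, hflat'⟩
  · ext i j
    rw [Matrix.mul_apply, Matrix.mul_diagonal, hcol]
    ring
  · intro j
    have h1 := hν j
    have h2 := hnear.diag j
    have h3 : |ν j| ≤ |ν j - fr α β z (rm γ) j j| + |fr α β z (rm γ) j j| := by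
      have := abs_add_le (ν j - fr α β z (rm γ) j j) (fr α β z (rm γ) j j)
      rwa [sub_add_cancel] at this
    linarith

end Pool.Agent.H6.LU
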