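import Pool.Agent.H6.LU.Defs

/-!
# The cubic form of `γ`

`γ` has the eigenvectors `H Q`; so `[x, γ x, γ² x]` is the product of `H Q`, the diagonal matrix of
the coordinates `yc x` and a Vandermonde matrix. If `FF γ x = 0` for an integer vector `x ≠ 0` then
a nonzero rational polynomial `p` of degree at most `2` has `p(γ) x = 0`; it is coprime to the
irreducible characteristic polynomial, so `x = 0` by Cayley-Hamilton.
-/

open Real Matrix Polynomial

namespace Pool.Agent.H6.LU

open Pool.Agent.H6.LW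

lemma Q_mulVec_yc {α β : ℝ} {Q : Matrix (Fin 3) (Fin 3) ℝ} (hQ : Q.det ≠ 0) (x : Fin 3 → ℝ) :
    Q.mulVec (yc α β Q x) = (H α β).mulVec x := by
  unfold yc
  rw [Matrix.mulVec_mulVec, Matrix.mul_nonsing_inv _ (isUnit_iff_ne_zero.mpr hQ),
    Matrix.one_mulVec]

lemma Form_H_det_sq (α β : ℝ) : (H α β).det * (H α β).det = 1 := by
  rw [← Matrix.det_mul, H_mul_H, Matrix.det_one]

lemma Form_H_det (α β : ℝ) : (H α β).det = 1 := by
  simp [H, Matrix.det_fin_three]

/-- `γ` acts diagonally on the coordinates `yc` -/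
lemma Form_act {α β E : ℝ} {γ : Matrix (Fin 3) (Fin 3) ℤ} {Q : Matrix (Fin 3) (Fin 3) ℝ}
    {ν : Fin 3 → ℝ} (h : EF α β E γ Q ν) {v y : Fin 3 → ℝ}
    (hv : (H α β).mulVec v = Q.mulVec y) :
    (H α β).mulVec ((rm γ).mulVec v) = Q.mulVec (fun i => ν i * y i) := by
  have h1 : (H α β).mulVec ((rm γ).mulVec v) = (hg α β γ).mulVec ((H α β).mulVec v) := by
    unfold hg
    rw [Matrix.mulVec_mulVec, Matrix.mulVec_mulVec, Matrix.mul_assoc, H_mul_H, Matrix.mul_one]
  rw [h1, hv, Matrix.mulVec_mulVec, h.eig, ← Matrix.mulVec_mulVec]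
  congr 1
  ext i
  simp [Matrix.mulVec_diagonal]

lemma Form_cv_mulVec (γ : Matrix (Fin 3) (Fin 3) ℤ) (x : Fin 3 → ℤ) :
    cv (γ.mulVec x) = (rm γ).mulVec (cv x) := by
  ext i
  simp [cv, rm, Matrix.mulVec, dotProduct]

theorem FF_eq {α β E : ℝ} {γ : Matrix (Fin 3) (Fin 3) ℤ} {Q : Matrix (Fin 3) (Fin 3) ℝ}
    {ν : Fin 3 → ℝ} (h : EF α β E γ Q ν) (x : Fin 3 → ℤ) :
    (FF γ x : ℝ) = Q.det * vand ν *
      (yc α β Q (cv x) 0 * yc α β Q (cv x) 1 * yc α β Q (cv x) 2) := by
  have hQ : Q.det ≠ 0 := by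
    intro h0
    have := h.det1
    rw [h0, abs_zero] at this
    norm_num at this
  set y := yc α β Q (cv x) with hy
  have e0 : (H α β).mulVec (cv x) = Q.mulVec y := (Q_mulVec_yc hQ (cv x)).symm
  have e1 : (H α β).mulVec (cv (γ.mulVec x)) = Q.mulVec (fun i => ν i * y i) := by
    rw [Form_cv_mulVec]
    exact Form_act h e0
  have e2 : (H α β).mulVec (cv (γ.mulVec (γ.mulVec x))) =
      Q.mulVec (fun i => ν i * (ν i * y i)) := by
    rw [Form_cv_mulVec]
    exact Form_act h e1
  have hcast : (FF γ x : ℝ) =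
      (Matrix.of ![cv x, cv (γ.mulVec x), cv (γ.mulVec (γ.mulVec x))]).det := by
    unfold FF
    rw [Matrix.det_fin_three, Matrix.det_fin_three]
    simp [cv]
  -- transpose and multiply by `H`
  have hH : (Matrix.of ![cv x, cv (γ.mulVec x), cv (γ.mulVec (γ.mulVec x))]).det =
      (Matrix.of ![(H α β).mulVec (cv x), (H α β).mulVec (cv (γ.mulVec x)),
        (H α β).mulVec (cv (γ.mulVec (γ.mulVec x)))]).det := by
    have hm : (Matrix.of ![(H α β).mulVec (cv x), (H α β).mulVec (cv (γ.mulVec x)),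
        (H α β).mulVec (cv (γ.mulVec (γ.mulVec x)))]) =
        (Matrix.of ![cv x, cv (γ.mulVec x), cv (γ.mulVec (γ.mulVec x))]) * (H α β)ᵀ := by
      ext i j
      fin_cases i <;> simp [Matrix.mul_apply, Matrix.mulVec, dotProduct, Fin.sum_univ_three] <;> ring
    rw [hm, Matrix.det_mul, Matrix.det_transpose, Form_H_det, mul_one]
  have hQm : (Matrix.of ![(H α β).mulVec (cv x), (H α β).mulVec (cv (γ.mulVec x)),
        (H α β).mulVec (cv (γ.mulVec (γ.mulVec x)))]) =
      (Matrix.of ![y, fun i => ν i * y i, fun i => ν i * (ν i * y i)]) * Qᵀ := by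
    rw [e0, e1, e2]
    ext i j
    fin_cases i <;> simp [Matrix.mul_apply, Matrix.mulVec, dotProduct, Fin.sum_univ_three] <;> ring
  rw [hcast, hH, hQm, Matrix.det_mul, Matrix.det_transpose]
  have hv : (Matrix.of ![y, fun i => ν i * y i, fun i => ν i * (ν i * y i)]).det =
      vand ν * (y 0 * y 1 * y 2) := by
    rw [Matrix.det_fin_three]
    simp [vand]
    ring
  rw [hv]
  ring

/-- the rational version: a linear dependence of `x, γ x, γ² x` gives a polynomial -/
theorem FF_ne_zero {γ : Matrix (Fin 3) (Fin 3) ℤ}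
    (h : Irreducible (γ.charpoly.map (Int.castRingHom ℚ))) {x : Fin 3 → ℤ} (hx : x ≠ 0) :
    FF γ x ≠ 0 := by
  intro h0
  -- rational matrix
  set g : Matrix (Fin 3) (Fin 3) ℚ := γ.map (Int.castRingHom ℚ) with hg
  set X : Fin 3 → ℚ := fun i => (x i : ℚ) with hX
  have hX0 : X ≠ 0 := by
    intro hz
    apply hx
    ext i
    have := congrFun hz i
    simpa [hX] using this
  have hcp : g.charpoly = γ.charpoly.map (Int.castRingHom ℚ) := Matrix.charpoly_map _ _
  have hdet : (Matrix.of ![X, g.mulVec X, g.mulVec (g.mulVec X)]).det = 0 := by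
    have e1 : (fun i => ((γ.mulVec x) i : ℚ)) = g.mulVec X := by
      ext i
      simp [hg, hX, Matrix.mulVec, dotProduct]
    have e2 : (fun i => ((γ.mulVec (γ.mulVec x)) i : ℚ)) = g.mulVec (g.mulVec X) := by
      rw [← e1]
      ext i
      simp [hg, Matrix.mulVec, dotProduct]
    have e3 : ((FF γ x : ℤ) : ℚ) = (Matrix.of ![X, g.mulVec X, g.mulVec (g.mulVec X)]).det := by
      rw [← e2, ← e1]
      unfold FF
      rw [Matrix.det_fin_three, Matrix.det_fin_three]
      simp [hX]
    rw [← e3, h0, Int.cast_zero]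
  obtain ⟨c, hc0, hc⟩ := Matrix.exists_vecMul_eq_zero_iff.mpr hdet
  set p : ℚ[X] := C (c 0) + C (c 1) * Polynomial.X + C (c 2) * Polynomial.X ^ 2 with hp
  have hp0 : p ≠ 0 := by
    intro hz
    apply hc0
    have k0 : p.coeff 0 = c 0 := by simp [hp, Polynomial.coeff_X, Polynomial.coeff_C]
    have k1 : p.coeff 1 = c 1 := by simp [hp, Polynomial.coeff_C]
    have k2 : p.coeff 2 = c 2 := by simp [hp]
    rw [hz, Polynomial.coeff_zero] at k0 k1 k2
    ext i
    fin_cases i
    · exact k0.symm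
    · exact k1.symm
    · exact k2.symm
  have hpg : (aeval g p).mulVec X = 0 := by
    have e : aeval g p = c 0 • (1 : Matrix (Fin 3) (Fin 3) ℚ) + c 1 • g + c 2 • (g * g) := by
      simp [hp, Algebra.algebraMap_eq_smul_one, pow_two]
    rw [e, Matrix.add_mulVec, Matrix.add_mulVec, Matrix.smul_mulVec, Matrix.smul_mulVec,
      Matrix.smul_mulVec, Matrix.one_mulVec, ← Matrix.mulVec_mulVec]
    ext i
    have := congrFun hc i
    simp only [Matrix.vecMul, dotProduct, Fin.sum_univ_three, Matrix.of_apply, Pi.zero_apply] at this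
    simpa using this
  have hdeg : p.natDegree < 3 := by
    have : p.natDegree ≤ 2 := by
      rw [hp]
      compute_degree
    omega
  have hmon : g.charpoly.natDegree = 3 := by
    rw [Matrix.charpoly_natDegree_eq_dim]; simp
  have hirr : Irreducible g.charpoly := by rw [hcp]; exact h
  have hcop : IsCoprime g.charpoly p := by
    rw [hirr.coprime_iff_not_dvd]
    intro hdvd
    have := Polynomial.natDegree_le_of_dvd hdvd hp0
    omega
  obtain ⟨a, b, hab⟩ := hcop
  have hfin : (aeval g (a * g.charpoly + b * p)).mulVec X = 0 := by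
    rw [map_add, map_mul, map_mul, Matrix.aeval_self_charpoly, mul_zero, zero_add,
      ← Matrix.mulVec_mulVec, hpg, Matrix.mulVec_zero]
  rw [hab, map_one, Matrix.one_mulVec] at hfin
  exact hX0 hfin

end Pool.Agent.H6.LU
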