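import Pool.Agent.H6.LW.Base

/-!
# Minkowski's theorem for three linear forms

Proof: `MeasureTheory.exists_ne_zero_mem_lattice_of_measure_mul_two_pow_lt_measure` for the lattice
`ℤ³` (span of the standard basis of `Fin 3 → ℝ`, fundamental domain of volume `1`) and the convex
symmetric set `{x | ∀ i, |A x i| ≤ 1}`, the preimage of a cube of volume `8` under a linear map of
determinant `A.det` (`MeasureTheory.Measure.addHaar_preimage_linearMap`).
-/

open Real Matrix

namespace Pool.Agent.H6.LU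

open Pool.Agent.H6.LW

theorem minkowski {A : Matrix (Fin 3) (Fin 3) ℝ} (h0 : A.det ≠ 0) (h1 : |A.det| < 1) :
    ∃ v : Fin 3 → ℤ, v ≠ 0 ∧ ∀ i, |A.mulVec (cv v) i| ≤ 1 := by
  classical
  have fund := ZSpan.isAddFundamentalDomain' (Pi.basisFun ℝ (Fin 3))
    (MeasureTheory.volume : MeasureTheory.Measure (Fin 3 → ℝ))
  have hF : (MeasureTheory.volume : MeasureTheory.Measure (Fin 3 → ℝ))
      (ZSpan.fundamentalDomain (Pi.basisFun ℝ (Fin 3))) = 1 := by
    rw [ZSpan.fundamentalDomain_pi_basisFun, MeasureTheory.volume_pi, MeasureTheory.Measure.pi_pi]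
    simp
  set s : Set (Fin 3 → ℝ) := (Matrix.toLin' A) ⁻¹' (Set.Icc (fun _ => -1) (fun _ => 1)) with hs
  have hsm : ∀ x, x ∈ s ↔ ∀ i, |A.mulVec x i| ≤ 1 := by
    intro x
    rw [hs, Set.mem_preimage, Set.mem_Icc, Matrix.toLin'_apply]
    constructor
    · rintro ⟨h2, h3⟩ i
      exact abs_le.2 ⟨h2 i, h3 i⟩
    · intro h
      exact ⟨fun i => (abs_le.1 (h i)).1, fun i => (abs_le.1 (h i)).2⟩
  have hconv : Convex ℝ s := (convex_Icc _ _).linear_preimage (Matrix.toLin' A)
  have hsymm : ∀ x ∈ s, -x ∈ s := by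
    intro x hx
    rw [hsm] at hx ⊢
    intro i
    rw [Matrix.mulVec_neg, Pi.neg_apply, abs_neg]
    exact hx i
  have hvol : (MeasureTheory.volume : MeasureTheory.Measure (Fin 3 → ℝ)) s =
      ENNReal.ofReal |A.det⁻¹| * 8 := by
    have hd : LinearMap.det (Matrix.toLin' A) = A.det := LinearMap.det_toLin' A
    rw [hs, MeasureTheory.Measure.addHaar_preimage_linearMap _ (by rw [hd]; exact h0), hd,
      Real.volume_Icc_pi]
    congr 1
    simp
    norm_num
  have hlt : (MeasureTheory.volume : MeasureTheory.Measure (Fin 3 → ℝ))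
      (ZSpan.fundamentalDomain (Pi.basisFun ℝ (Fin 3))) *
      2 ^ Module.finrank ℝ (Fin 3 → ℝ) <
      (MeasureTheory.volume : MeasureTheory.Measure (Fin 3 → ℝ)) s := by
    rw [hF, hvol]
    have h2 : (1 : ENNReal) < ENNReal.ofReal |A.det⁻¹| := by
      rw [ENNReal.one_lt_ofReal, abs_inv]
      exact (one_lt_inv₀ (abs_pos.2 h0)).2 h1
    have h3 : Module.finrank ℝ (Fin 3 → ℝ) = 3 := by simp
    rw [h3]
    have h4 : (2 : ENNReal) ^ 3 = 8 := by norm_num
    rw [h4]
    exact (ENNReal.mul_lt_mul_iff_left (by norm_num) (by norm_num)).2 h2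
  have hcount : Countable (Submodule.span ℤ (Set.range (Pi.basisFun ℝ (Fin 3)))).toAddSubgroup :=
    inferInstanceAs (Countable (Submodule.span ℤ (Set.range (Pi.basisFun ℝ (Fin 3)))))
  obtain ⟨x, hx0, hxs⟩ :=
    MeasureTheory.exists_ne_zero_mem_lattice_of_measure_mul_two_pow_lt_measure fund hsymm hconv hlt
  have hx2 : (x : Fin 3 → ℝ) ∈ Submodule.span ℤ (Set.range (Pi.basisFun ℝ (Fin 3))) := x.2
  rw [Module.Basis.mem_span_iff_repr_mem] at hx2
  choose v hv using hx2
  have hcv : cv v = (x : Fin 3 → ℝ) := by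
    ext i
    have := hv i
    simpa [cv] using this
  refine ⟨v, ?_, ?_⟩
  · rintro rfl
    apply hx0
    apply Subtype.ext
    rw [← hcv]
    ext i
    simp [cv]
  · rw [hcv]
    exact (hsm _).1 hxs

end Pool.Agent.H6.LU
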