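import Pool.Agent.H6.LU.Form
import Pool.Agent.H6.LU.Mink

/-!
# Short vectors at every position of the torus orbit of the cubic lattice

`minkowski` for the matrix `(1/2) diag (exp a) Q⁻¹ H`, of determinant at most `2/8` in absolute
value, gives the upper bound. `1 ≤ |FF γ x| ≤ 2 |vand ν| |y₀ y₁ y₂|` and `|vand ν| ≤ (4 E⁴)³` give
the lower bound.
-/

open Real Matrix

namespace Pool.Agent.H6.LU

open Pool.Agent.H6.LW

private lemma Vec_low {F K a b c : ℝ} (hF : 1 ≤ F) (hb0 : 0 ≤ b) (_hc0 : 0 ≤ c) (ha0 : 0 ≤ a)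
    (hb : b ≤ 2) (hc : c ≤ 2) (hK : 0 < K) (h : F ≤ 128 * K * (a * b * c)) :
    1 ≤ 512 * K * a := by
  have h1 : b * c ≤ 4 := by nlinarith
  have h2 : a * (b * c) ≤ a * 4 := mul_le_mul_of_nonneg_left h1 ha0
  have h3 : 128 * K * (a * (b * c)) ≤ 128 * K * (a * 4) :=
    mul_le_mul_of_nonneg_left h2 (by positivity)
  have h4 : 128 * K * (a * b * c) = 128 * K * (a * (b * c)) := by ring
  linarith

theorem exists_vec {α β E : ℝ} {γ : Matrix (Fin 3) (Fin 3) ℤ} {Q : Matrix (Fin 3) (Fin 3) ℝ}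
    {ν : Fin 3 → ℝ} (h : EF α β E γ Q ν) (hE : 1000 ≤ E) {a : Fin 3 → ℝ}
    (ha : a 0 + a 1 + a 2 = 0) :
    ∃ x : Fin 3 → ℤ, x ≠ 0 ∧ |(FF γ x : ℝ)| ≤ E ^ 14 ∧
      ∀ l, (E ^ 13)⁻¹ ≤ exp (a l) * |yc α β Q (cv x) l| ∧
        exp (a l) * |yc α β Q (cv x) l| ≤ 2 := by
  have hE0 : 0 < E := by linarith
  have hQ0 : 0 < |Q.det| := by linarith [h.det1]
  have hQne : Q.det ≠ 0 := abs_pos.1 hQ0
  set A : Matrix (Fin 3) (Fin 3) ℝ :=
    Matrix.diagonal (fun l => 1 / 2 * exp (a l)) * (Q⁻¹ * H α β) with hA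
  have hH : (H α β).det = 1 := by
    rw [H, Matrix.det_fin_three]
    simp
  have hexp : exp (a 0) * exp (a 1) * exp (a 2) = 1 := by
    rw [← exp_add, ← exp_add, ha, exp_zero]
  have hdet : A.det = 1 / 8 * (Q.det)⁻¹ := by
    rw [hA, Matrix.det_mul, Matrix.det_mul, hH, Matrix.det_diagonal, Matrix.det_nonsing_inv,
      Ring.inverse_eq_inv', Fin.prod_univ_three]
    calc 1 / 2 * exp (a 0) * (1 / 2 * exp (a 1)) * (1 / 2 * exp (a 2)) * (Q.det⁻¹ * 1) =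
        1 / 8 * (exp (a 0) * exp (a 1) * exp (a 2)) * Q.det⁻¹ := by ring
      _ = _ := by rw [hexp]; ring
  have hdet0 : A.det ≠ 0 := by
    rw [hdet]
    exact mul_ne_zero (by norm_num) (inv_ne_zero hQne)
  have hdet1 : |A.det| < 1 := by
    rw [hdet, abs_mul, abs_inv, abs_of_pos (by norm_num : (0 : ℝ) < 1 / 8)]
    have h1 : |Q.det|⁻¹ ≤ (1 / 2)⁻¹ := inv_anti₀ (by norm_num) h.det1
    norm_num at h1
    linarith
  obtain ⟨x, hx0, hx⟩ := minkowski hdet0 hdet1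
  have hy : ∀ l, A.mulVec (cv x) l = 1 / 2 * exp (a l) * yc α β Q (cv x) l := by
    intro l
    rw [hA, ← Matrix.mulVec_mulVec, Matrix.mulVec_diagonal, yc, Matrix.mulVec_mulVec]
  have hup : ∀ l, exp (a l) * |yc α β Q (cv x) l| ≤ 2 := by
    intro l
    have h1 := hx l
    rw [hy, abs_mul, abs_mul, abs_of_pos (exp_pos _), abs_of_pos (by norm_num : (0 : ℝ) < 1 / 2)]
      at h1
    linarith
  set u : Fin 3 → ℝ := fun l => exp (a l) * |yc α β Q (cv x) l| with hu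
  have hu0 : ∀ l, 0 ≤ u l := fun l => mul_nonneg (exp_pos _).le (abs_nonneg _)
  have hu2 : ∀ l, u l ≤ 2 := hup
  have hprod : |yc α β Q (cv x) 0 * yc α β Q (cv x) 1 * yc α β Q (cv x) 2| = u 0 * u 1 * u 2 := by
    rw [abs_mul, abs_mul, hu]
    calc |yc α β Q (cv x) 0| * |yc α β Q (cv x) 1| * |yc α β Q (cv x) 2| =
        1 * (|yc α β Q (cv x) 0| * |yc α β Q (cv x) 1| * |yc α β Q (cv x) 2|) := by ring
      _ = (exp (a 0) * exp (a 1) * exp (a 2)) *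
        (|yc α β Q (cv x) 0| * |yc α β Q (cv x) 1| * |yc α β Q (cv x) 2|) := by rw [hexp]
      _ = _ := by ring
  have hdiff : ∀ i j : Fin 3, |ν i - ν j| ≤ 4 * E ^ 4 := by
    intro i j
    have h1 := h.bd i
    have h2 := h.bd j
    have h3 : |ν i - ν j| ≤ |ν i| + |ν j| := abs_sub _ _
    linarith
  have hvand : |vand ν| ≤ 64 * E ^ 12 := by
    rw [vand, abs_mul, abs_mul]
    calc |ν 1 - ν 0| * |ν 2 - ν 0| * |ν 2 - ν 1| ≤ 4 * E ^ 4 * (4 * E ^ 4) * (4 * E ^ 4) := by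
          apply mul_le_mul _ (hdiff 2 1) (abs_nonneg _) (by positivity)
          exact mul_le_mul (hdiff 1 0) (hdiff 2 0) (abs_nonneg _) (by positivity)
      _ = 64 * E ^ 12 := by ring
  have hFF : |(FF γ x : ℝ)| ≤ 128 * E ^ 12 * (u 0 * u 1 * u 2) := by
    rw [FF_eq h x, abs_mul, abs_mul, hprod]
    have h1 : |Q.det| * |vand ν| ≤ 2 * (64 * E ^ 12) :=
      mul_le_mul h.det2 hvand (abs_nonneg _) (by norm_num)
    have h2 : 0 ≤ u 0 * u 1 * u 2 := mul_nonneg (mul_nonneg (hu0 0) (hu0 1)) (hu0 2)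
    calc |Q.det| * |vand ν| * (u 0 * u 1 * u 2) ≤ 2 * (64 * E ^ 12) * (u 0 * u 1 * u 2) :=
          mul_le_mul_of_nonneg_right h1 h2
      _ = _ := by ring
  have hFF1 : 1 ≤ |(FF γ x : ℝ)| := by
    rw [← Int.cast_abs]
    exact_mod_cast Int.one_le_abs (FF_ne_zero h.irr hx0)
  have hE12 : 0 < E ^ 12 := by positivity
  refine ⟨x, hx0, ?_, ?_⟩
  · have h1 : u 0 * u 1 * u 2 ≤ 2 * 2 * 2 := by
      apply mul_le_mul _ (hu2 2) (hu0 2) (by norm_num)
      exact mul_le_mul (hu2 0) (hu2 1) (hu0 1) (by norm_num)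
    have h2 : 128 * E ^ 12 * (u 0 * u 1 * u 2) ≤ 128 * E ^ 12 * (2 * 2 * 2) :=
      mul_le_mul_of_nonneg_left h1 (by positivity)
    have h3 : (1024 : ℝ) ≤ E ^ 2 := by nlinarith
    have h4 : E ^ 14 = E ^ 12 * E ^ 2 := by ring
    rw [h4]
    nlinarith
  · have low : ∀ l, 1 ≤ 512 * E ^ 12 * u l := by
      have l0 : 1 ≤ 512 * E ^ 12 * u 0 :=
        Vec_low hFF1 (hu0 1) (hu0 2) (hu0 0) (hu2 1) (hu2 2) hE12 hFF
      have l1 : 1 ≤ 512 * E ^ 12 * u 1 := by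
        refine Vec_low hFF1 (hu0 0) (hu0 2) (hu0 1) (hu2 0) (hu2 2) hE12 (hFF.trans (le_of_eq ?_))
        ring
      have l2 : 1 ≤ 512 * E ^ 12 * u 2 := by
        refine Vec_low hFF1 (hu0 0) (hu0 1) (hu0 2) (hu2 0) (hu2 1) hE12 (hFF.trans (le_of_eq ?_))
        ring
      intro l
      fin_cases l
      · exact l0
      · exact l1
      · exact l2
    intro l
    refine ⟨?_, hup l⟩
    have h1 := low l
    rw [inv_le_iff_one_le_mul₀ (by positivity)]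
    have h2 : 512 * E ^ 12 * u l ≤ E * E ^ 12 * u l := by
      apply mul_le_mul_of_nonneg_right _ (hu0 l)
      apply mul_le_mul_of_nonneg_right _ hE12.le
      linarith
    have h3 : u l * E ^ 13 = E * E ^ 12 * u l := by ring
    have h4 : exp (a l) * |yc α β Q (cv x) l| = u l := rfl
    rw [h4, h3]
    linarith

end Pool.Agent.H6.LU
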