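import Pool.Agent.H6.LU.UnitOf
import Pool.Agent.H6.LU.Vec

/-!
# A unit with two nearly equal eigenvalues

Put `L = log E`. For `n = 0, 1, 2, ...` let `x n` be the vector of `exists_vec` for the weights
`a i = a j = n (7 L + 1)`, `a l = - 2 n (7 L + 1)`, and `g m n = log |yc (x n) m| + a m`, which is
in `[-13 L, log 2]`. Pigeonhole on `n ≤ ⌊E ^ 61⌋` for the triple `FF γ (x n)`, `x n` modulo
`|FF γ (x n)|`, `⌊(g i n - g j n) / e⌋`, which takes at most `E ^ 60` values. Two indices `n < m`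
with equal triples give by `exists_delta` an integer matrix `w'` with eigenvalues
`yc (x m) / yc (x n)`, and `w = w' * w'` has positive eigenvalues `ω` with
`log (ω l) ≥ 2 (14 L + 2 - 13 L - log 2) > 0`, `|log (ω i) - log (ω j)| ≤ 2 e` and
`|log (ω m)| ≤ E ^ 63`.
-/

open Real Matrix

namespace Pool.Agent.H6.LU

open Pool.Agent.H6.LW

lemma good_count {E A B : ℝ} (hE : 1000 ≤ E) (hA0 : 0 ≤ A) (hA : A ≤ E ^ 14) (hB0 : 0 ≤ B)
    (hB : B ≤ 14 * E ^ 2 + 1) : (2 * A + 1) * (A + 1) ^ 3 * (2 * B + 1) ≤ E ^ 61 := by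
  have h1 : 1 ≤ E ^ 14 := one_le_pow₀ (by linarith)
  have h2 : 1 ≤ E ^ 2 := one_le_pow₀ (by linarith)
  have h3 : E ^ 59 * 1000 ≤ E ^ 59 * E := mul_le_mul_of_nonneg_left hE (by positivity)
  have h4 : E ^ 59 * E * 1 ≤ E ^ 59 * E * E := mul_le_mul_of_nonneg_left (by linarith) (by positivity)
  calc (2 * A + 1) * (A + 1) ^ 3 * (2 * B + 1)
      ≤ (3 * E ^ 14) * (2 * E ^ 14) ^ 3 * (31 * E ^ 2) := by
        gcongr
        · linarith
        · linarith
        · linarith
    _ = 744 * E ^ 58 := by ring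
    _ ≤ E * E ^ 58 := by
        apply mul_le_mul_of_nonneg_right (by linarith) (by positivity)
    _ = E ^ 59 := by ring
    _ ≤ E ^ 61 := by nlinarith [pow_pos (show 0 < E by linarith) 59]

lemma good_pigeon {E e : ℝ} (hE : 1000 ≤ E) (he : 0 < e) (hEe : 1 / e ≤ E) (D : ℕ → ℤ)
    (x : ℕ → Fin 3 → ℤ) (r : ℕ → ℝ) (hD0 : ∀ n, D n ≠ 0) (hD : ∀ n, |(D n : ℝ)| ≤ E ^ 14)
    (hr : ∀ n, |r n| ≤ 14 * E) :
    ∃ n m : ℕ, n < m ∧ (m : ℝ) ≤ E ^ 61 ∧ D n = D m ∧ (∀ k, D n ∣ x m k - x n k) ∧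
      |r m - r n| ≤ e := by
  set A : ℤ := ⌊E ^ 14⌋ with hA
  set B : ℤ := ⌊14 * E ^ 2⌋ + 1 with hB
  have hE14 : (0 : ℝ) ≤ E ^ 14 := by positivity
  have hE2 : (0 : ℝ) ≤ 14 * E ^ 2 := by positivity
  have hA0 : 0 ≤ A := Int.floor_nonneg.mpr hE14
  have hB0 : 0 ≤ B := by
    have := Int.floor_nonneg.mpr hE2
    omega
  have hA1 : (A : ℝ) ≤ E ^ 14 := Int.floor_le _
  have hB1 : (B : ℝ) ≤ 14 * E ^ 2 + 1 := by
    rw [hB]
    push_cast
    have := Int.floor_le (14 * E ^ 2)
    linarith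
  let f : ℕ → ℤ × (Fin 3 → ℤ) × ℤ := fun n => (D n, (fun k => x n k % D n), ⌊r n / e⌋)
  let T : Finset (ℤ × (Fin 3 → ℤ) × ℤ) := Finset.Icc (-A) A ×ˢ
    ((Fintype.piFinset fun _ : Fin 3 => Finset.Icc 0 A) ×ˢ Finset.Icc (-B) B)
  have hmaps : ∀ n ∈ Finset.range (⌊E ^ 61⌋₊ + 1), f n ∈ T := by
    intro n _
    have h1 : |D n| ≤ A := by
      rw [hA, Int.le_floor]
      push_cast
      exact hD n
    have h2 := abs_le.mp h1
    have h3 : |r n / e| ≤ 14 * E ^ 2 := by
      rw [abs_div, abs_of_pos he, div_eq_mul_one_div]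
      calc |r n| * (1 / e) ≤ (14 * E) * E := by
            apply mul_le_mul (hr n) hEe (by positivity) (by linarith)
        _ = 14 * E ^ 2 := by ring
    have h4 := abs_le.mp h3
    have h5 : ⌊r n / e⌋ ≤ B := by
      have : ⌊r n / e⌋ ≤ ⌊14 * E ^ 2⌋ := Int.floor_le_floor h4.2
      omega
    have h6 : -B ≤ ⌊r n / e⌋ := by
      rw [Int.le_floor, hB]
      push_cast
      have := Int.lt_floor_add_one (14 * E ^ 2)
      linarith
    simp only [T, f, Finset.mem_product, Finset.mem_Icc, Fintype.mem_piFinset]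
    refine ⟨h2, fun k => ⟨Int.emod_nonneg _ (hD0 n), ?_⟩, h6, h5⟩
    have := Int.emod_lt_abs (x n k) (hD0 n)
    omega
  have hcard : T.card < (Finset.range (⌊E ^ 61⌋₊ + 1)).card := by
    have e1 : T.card = (2 * A + 1).toNat * ((A + 1).toNat ^ 3 * (2 * B + 1).toNat) := by
      have q1 : A + 1 - -A = 2 * A + 1 := by ring
      have q2 : A + 1 - 0 = A + 1 := by ring
      have q3 : B + 1 - -B = 2 * B + 1 := by ring
      simp only [T, Finset.card_product, Int.card_Icc, Fintype.card_piFinset, Finset.prod_const,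
        Finset.card_univ, Fintype.card_fin, q1, q2, q3]
    rw [e1, Finset.card_range]
    have h1 := good_count hE (by exact_mod_cast hA0) hA1 (by exact_mod_cast hB0) hB1
    have c1 : (((2 * A + 1).toNat : ℕ) : ℝ) = 2 * A + 1 := by
      have : (((2 * A + 1).toNat : ℕ) : ℤ) = 2 * A + 1 := Int.toNat_of_nonneg (by omega)
      exact_mod_cast this
    have c2 : (((A + 1).toNat : ℕ) : ℝ) = A + 1 := by
      have : (((A + 1).toNat : ℕ) : ℤ) = A + 1 := Int.toNat_of_nonneg (by omega)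
      exact_mod_cast this
    have c3 : (((2 * B + 1).toNat : ℕ) : ℝ) = 2 * B + 1 := by
      have : (((2 * B + 1).toNat : ℕ) : ℤ) = 2 * B + 1 := Int.toNat_of_nonneg (by omega)
      exact_mod_cast this
    have h2 : (((2 * A + 1).toNat * ((A + 1).toNat ^ 3 * (2 * B + 1).toNat) : ℕ) : ℝ) ≤ E ^ 61 := by
      push_cast
      rw [c1, c2, c3, ← mul_assoc]
      exact h1
    have h3 := Nat.le_floor h2
    omega
  obtain ⟨n, hn, m, hm, hnm, heq⟩ := Finset.exists_ne_map_eq_of_card_lt_of_maps_to hcard hmaps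
  have key : ∀ n m : ℕ, m ∈ Finset.range (⌊E ^ 61⌋₊ + 1) → n < m → f n = f m →
      ∃ n m : ℕ, n < m ∧ (m : ℝ) ≤ E ^ 61 ∧ D n = D m ∧ (∀ k, D n ∣ x m k - x n k) ∧
      |r m - r n| ≤ e := by
    intro n m hm hlt heq
    simp only [f, Prod.mk.injEq] at heq
    obtain ⟨e1, e2, e3⟩ := heq
    refine ⟨n, m, hlt, ?_, e1, fun k => ?_, ?_⟩
    · have h1 : m ≤ ⌊E ^ 61⌋₊ := by
        have := Finset.mem_range.mp hm
        omega
      exact (Nat.le_floor_iff (by positivity)).mp h1
    · have h1 : x n k % D n = x m k % D m := congrFun e2 k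
      rw [← e1] at h1
      exact (show x n k ≡ x m k [ZMOD D n] from h1).dvd
    · have h1 := Int.floor_le (r n / e)
      have h2 := Int.lt_floor_add_one (r n / e)
      have h3 := Int.floor_le (r m / e)
      have h4 := Int.lt_floor_add_one (r m / e)
      rw [← e3] at h3 h4
      have h5 : |(r m - r n) / e| ≤ 1 := by
        rw [sub_div, abs_le]
        constructor <;> linarith
      rw [abs_div, abs_of_pos he, div_le_one he] at h5
      exact h5
  rcases lt_or_gt_of_ne hnm with h | h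
  · exact key n m hm h heq
  · exact key m n hn h heq.symm

theorem exists_good_unit {α β E e : ℝ} {γ : Matrix (Fin 3) (Fin 3) ℤ}
    {Q : Matrix (Fin 3) (Fin 3) ℝ} {ν : Fin 3 → ℝ} (h : EF α β E γ Q ν) (he : 0 < e) (he1 : e ≤ 1)
    (hE : 1000 ≤ E) (hEe : 1 / e ≤ E) {i j l : Fin 3} (hij : i ≠ j) (hil : i ≠ l) (hjl : j ≠ l) :
    ∃ (w : Matrix (Fin 3) (Fin 3) ℤ) (ω : Fin 3 → ℝ), IsU α β Q w ω ∧ 1 < ω l ∧
      (∀ m, |log (ω m)| ≤ E ^ 63) ∧ |log (ω i) - log (ω j)| ≤ 2 * e := by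
  have hE0 : 0 < E := by linarith
  set L := log E with hL
  have hL1 : 1 ≤ L := by
    rw [hL, le_log_iff_exp_le hE0]
    have := exp_one_lt_d9
    linarith
  have hLE : L ≤ E := (log_le_sub_one_of_pos hE0).trans (by linarith)
  have hl2 : log 2 ≤ 1 := by
    have := log_two_lt_d9
    linarith
  -- the weights
  let a : ℕ → Fin 3 → ℝ := fun n k => if k = l then -(2 * (n * (7 * L + 1))) else n * (7 * L + 1)
  have ha : ∀ n, a n 0 + a n 1 + a n 2 = 0 := by
    intro n
    simp only [a]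
    fin_cases l <;> simp <;> ring
  have hx := fun n => exists_vec h hE (ha n)
  choose x hx0 hxF hxb using hx
  have hF0 : ∀ n, FF γ (x n) ≠ 0 := fun n => FF_ne_zero h.irr (hx0 n)
  have hy0 : ∀ n k, yc α β Q (cv (x n)) k ≠ 0 := by
    intro n k hk
    have h1 := (hxb n k).1
    rw [hk, abs_zero, mul_zero] at h1
    have : 0 < (E ^ 13)⁻¹ := by positivity
    linarith
  let g : ℕ → Fin 3 → ℝ := fun n k => a n k + log |yc α β Q (cv (x n)) k|
  have hg : ∀ n k, -(13 * L) ≤ g n k ∧ g n k ≤ 1 := by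
    intro n k
    have hpos : 0 < |yc α β Q (cv (x n)) k| := abs_pos.mpr (hy0 n k)
    have e1 : g n k = log (exp (a n k) * |yc α β Q (cv (x n)) k|) := by
      rw [log_mul (exp_ne_zero _) hpos.ne', log_exp]
    rw [e1]
    constructor
    · have h1 : log ((E ^ 13)⁻¹) ≤ log (exp (a n k) * |yc α β Q (cv (x n)) k|) :=
        log_le_log (by positivity) (hxb n k).1
      rw [log_inv, log_pow] at h1
      push_cast at h1
      exact h1
    · have h1 : log (exp (a n k) * |yc α β Q (cv (x n)) k|) ≤ log 2 :=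
        log_le_log (by positivity) (hxb n k).2
      linarith
  obtain ⟨n, m, hnm, hmE, hD, hdvd, hr⟩ := good_pigeon hE he hEe (fun n => FF γ (x n)) x
    (fun n => g n i - g n j) hF0 hxF (by
      intro n
      have h1 := hg n i
      have h2 := hg n j
      rw [abs_le]
      constructor <;> linarith)
  obtain ⟨w', -, hw'⟩ := exists_delta h (hx0 n) hD hdvd
  set η : Fin 3 → ℝ := fun k => yc α β Q (cv (x m)) k / yc α β Q (cv (x n)) k with hη
  have hη0 : ∀ k, η k ≠ 0 := fun k => div_ne_zero (hy0 m k) (hy0 n k)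
  have hlog : ∀ k, log (η k * η k) = 2 * ((g m k - a m k) - (g n k - a n k)) := by
    intro k
    rw [log_mul (hη0 k) (hη0 k), hη]
    simp only
    rw [log_div (hy0 m k) (hy0 n k), ← log_abs (yc α β Q (cv (x m)) k),
      ← log_abs (yc α β Q (cv (x n)) k)]
    simp only [g]
    ring
  have hnm' : (n : ℝ) + 1 ≤ m := by exact_mod_cast hnm
  have hn0 : (0 : ℝ) ≤ n := Nat.cast_nonneg n
  have hij' : a m i = a m j ∧ a n i = a n j := by
    simp [a, hil, hjl]
  refine ⟨w' * w', fun k => η k * η k, ⟨fun k => ?_, ?_, ?_⟩, ?_, fun k => ?_, ?_⟩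
  · exact mul_self_pos.mpr (hη0 k)
  · have e1 : LU.hg α β (w' * w') = LU.hg α β w' * LU.hg α β w' := by
      simp only [LU.hg, rm_mul]
      calc H α β * (rm w' * rm w') * H α β = H α β * rm w' * 1 * rm w' * H α β := by
            simp only [Matrix.mul_assoc, Matrix.one_mul]
        _ = H α β * rm w' * (H α β * H α β) * rm w' * H α β := by rw [H_mul_H]
        _ = H α β * rm w' * H α β * (H α β * rm w' * H α β) := by simp only [Matrix.mul_assoc]
    rw [e1, Matrix.mul_assoc, hw', ← Matrix.mul_assoc, hw', Matrix.mul_assoc,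
      Matrix.diagonal_mul_diagonal]
  · have e1 := FF_eq h (x n)
    have e2 := FF_eq h (x m)
    rw [← hD, e1] at e2
    have e3 : (FF γ (x n) : ℝ) ≠ 0 := by exact_mod_cast hF0 n
    rw [e1] at e3
    have e4 := mul_left_cancel₀ (left_ne_zero_of_mul e3) e2
    have e5 : η 0 * η 1 * η 2 = 1 := by
      simp only [hη]
      have := hy0 n 0
      have := hy0 n 1
      have := hy0 n 2
      field_simp
      exact e4.symm
    calc η 0 * η 0 * (η 1 * η 1) * (η 2 * η 2) = (η 0 * η 1 * η 2) ^ 2 := by ring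
      _ = 1 := by rw [e5]; norm_num
  · have h1 : 0 < log (η l * η l) := by
      rw [hlog]
      have h1 := (hg m l).1
      have h2 := (hg n l).2
      have h3 : a m l = -(2 * (m * (7 * L + 1))) := by simp [a]
      have h4 : a n l = -(2 * (n * (7 * L + 1))) := by simp [a]
      rw [h3, h4]
      have h5 : (7 * L + 1) * (n + 1) ≤ (7 * L + 1) * m :=
        mul_le_mul_of_nonneg_left hnm' (by linarith)
      nlinarith
    exact (log_pos_iff (mul_self_pos.mpr (hη0 l)).le).mp h1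
  · rw [hlog]
    have h1 := hg m k
    have h2 := hg n k
    have h3 : |a m k - a n k| ≤ 2 * (E ^ 61 * (7 * E + 1)) := by
      have h4 : (m : ℝ) * (7 * L + 1) ≤ E ^ 61 * (7 * E + 1) := by
        apply mul_le_mul hmE (by linarith) (by linarith) (by positivity)
      have h5 : (n : ℝ) * (7 * L + 1) ≤ m * (7 * L + 1) :=
        mul_le_mul_of_nonneg_right (by linarith) (by linarith)
      have h6 : 0 ≤ (n : ℝ) * (7 * L + 1) := mul_nonneg hn0 (by linarith)
      simp only [a]
      rw [abs_le]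
      split_ifs
      · constructor <;> linarith
      · constructor <;> linarith
    have h4 := abs_le.mp h3
    have h5 : 2 * ((13 * E + 1) + 2 * (E ^ 61 * (7 * E + 1))) ≤ E ^ 63 := by
      have e1 : E ^ 63 = E ^ 61 * E * E := by ring
      have e2 : 1 ≤ E ^ 61 := one_le_pow₀ (by linarith)
      have e3 : E ^ 61 * E * 1000 ≤ E ^ 61 * E * E := mul_le_mul_of_nonneg_left hE (by positivity)
      have e4 : 1 * E ≤ E ^ 61 * E := mul_le_mul_of_nonneg_right e2 hE0.le
      have e5 : E ^ 61 * 1 ≤ E ^ 61 * E := mul_le_mul_of_nonneg_left (by linarith) (by positivity)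
      nlinarith
    rw [abs_le]
    constructor <;> linarith
  · rw [hlog, hlog]
    have e1 : 2 * ((g m i - a m i) - (g n i - a n i)) - 2 * ((g m j - a m j) - (g n j - a n j)) =
        2 * ((g m i - g m j) - (g n i - g n j)) := by
      rw [hij'.1, hij'.2]
      ring
    rw [e1, abs_mul, abs_of_pos (by norm_num : (0 : ℝ) < 2)]
    linarith

end Pool.Agent.H6.LU
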