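import Pool.Agent.H6.LU.Defs

/-!
# No long inner edges

If `Flat Q (1 / 100) p` then the entries of `fr α β p (rm γ)` are at most `4 E ^ 4` (from
`fr p γ * Q^p = Q^p * diag ν` where `Q^p` is the identity up to `1 / 100`). If `p.1 = p'.1 = b` and
`p.2 + F ≤ p'.2` then the entry `(0, 1)` at `p` and the entry `(2, 1)` at `p'` are bounded;
`X_entries`, `int_rel` and `det_col1` give a contradiction as in the proof of `finite_chain`.
-/

open Real Matrix

namespace Pool.Agent.H6.LU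

open Pool.Agent.H6.LW

theorem fr_le {α β E : ℝ} {γ : Matrix (Fin 3) (Fin 3) ℤ} {Q : Matrix (Fin 3) (Fin 3) ℝ}
    {ν : Fin 3 → ℝ} (h : EF α β E γ Q ν) {p : ℝ × ℝ} (hp : Flat Q (1 / 100) p) (i j : Fin 3) :
    |fr α β p (rm γ) i j| ≤ 4 * E ^ 4 := by
  obtain ⟨X, hX⟩ : ∃ X, X = fr α β p (rm γ) := ⟨_, rfl⟩
  obtain ⟨P, hP⟩ : ∃ P : Matrix (Fin 3) (Fin 3) ℝ,
    ∀ i j, P i j = exp (wt p i - wt p j) * Q i j :=
    ⟨Matrix.of fun i j => exp (wt p i - wt p j) * Q i j, fun _ _ => rfl⟩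
  have hP1 : ∀ j, P j j = 1 := by
    intro j
    rw [hP, sub_self, exp_zero, one_mul, h.one]
  have hPo : ∀ i j, i ≠ j → |P i j| ≤ 1 / 100 := by
    intro i j hij
    have := hp i j hij
    unfold qq at this
    rw [hP, abs_mul, abs_of_pos (exp_pos _)]
    exact this
  have hPa : ∀ i j, |P i j| ≤ 1 := by
    intro i j
    by_cases hij : i = j
    · rw [hij, hP1, abs_one]
    · exact (hPo i j hij).trans (by norm_num)
  have hXP : ∀ i j, ∑ k, X i k * P k j = P i j * ν j := by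
    intro i j
    have h1 := congrFun (congrFun h.eig i) j
    rw [Matrix.mul_apply, Matrix.mul_diagonal] at h1
    have h2 : ∀ k, X i k * P k j = exp (wt p i - wt p j) * (hg α β γ i k * Q k j) := by
      intro k
      have e1 : exp (wt p i - wt p j) = exp (wt p i - wt p k) * exp (wt p k - wt p j) := by
        rw [← exp_add]; congr 1; ring
      have e2 : X i k = exp (wt p i - wt p k) * hg α β γ i k := by
        rw [hX, fr_apply]; rfl
      rw [hP, e1, e2]
      ring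
    rw [Finset.sum_congr rfl fun k _ => h2 k, ← Finset.mul_sum, h1, hP]
    ring
  have hE : 0 ≤ 2 * E ^ 4 := (abs_nonneg _).trans (h.bd 0)
  obtain ⟨m, hm⟩ : ∃ m, m = max |X i 0| (max |X i 1| |X i 2|) := ⟨_, rfl⟩
  have m0 : |X i 0| ≤ m := by rw [hm]; exact le_max_left _ _
  have m1 : |X i 1| ≤ m := by rw [hm]; exact (le_max_left _ _).trans (le_max_right _ _)
  have m2 : |X i 2| ≤ m := by rw [hm]; exact (le_max_right _ _).trans (le_max_right _ _)
  have hmk : ∀ k, |X i k| ≤ m := by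
    have hcases : ∀ i : Fin 3, i = 0 ∨ i = 1 ∨ i = 2 := by decide
    intro k
    rcases hcases k with e | e | e <;> rw [e]
    · exact m0
    · exact m1
    · exact m2
  have hm0 : 0 ≤ m := (abs_nonneg _).trans m0
  have key : ∀ k, |X i k| ≤ 2 * E ^ 4 + m / 50 := by
    intro k
    have h1 := hXP i k
    rw [sum_cyc _ k, hP1, mul_one] at h1
    have n1 : k + 1 ≠ k := by fin_cases k <;> decide
    have n2 : k + 2 ≠ k := by fin_cases k <;> decide
    have b1 : |X i (k + 1) * P (k + 1) k| ≤ m * (1 / 100) := by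
      rw [abs_mul]
      exact mul_le_mul (hmk _) (hPo _ _ n1) (abs_nonneg _) hm0
    have b2 : |X i (k + 2) * P (k + 2) k| ≤ m * (1 / 100) := by
      rw [abs_mul]
      exact mul_le_mul (hmk _) (hPo _ _ n2) (abs_nonneg _) hm0
    have b3 : |P i k * ν k| ≤ 1 * (2 * E ^ 4) := by
      rw [abs_mul]
      exact mul_le_mul (hPa _ _) (h.bd k) (abs_nonneg _) zero_le_one
    have h2 : X i k = P i k * ν k - X i (k + 1) * P (k + 1) k - X i (k + 2) * P (k + 2) k := by
      linarith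
    rw [h2]
    rw [abs_le] at b1 b2 b3 ⊢
    constructor
    · linarith [b1.1, b1.2, b2.1, b2.2, b3.1, b3.2]
    · linarith [b1.1, b1.2, b2.1, b2.2, b3.1, b3.2]
  have hmle : m ≤ 2 * E ^ 4 + m / 50 := by
    conv_lhs => rw [hm]
    exact max_le (key 0) (max_le (key 1) (key 2))
  rw [← hX]
  have := hmk j
  linarith

lemma exp_bound' {x t B : ℝ} (h : |exp t * x| ≤ exp B) : |x| ≤ exp (B - t) := by
  rw [abs_mul, abs_of_pos (exp_pos _)] at h
  rw [exp_sub, le_div_iff₀ (exp_pos _)]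
  linarith

theorem inner_false {α β N M δ C c : ℝ} (S : Setup α β N M δ C c)
    {γ : Matrix (Fin 3) (Fin 3) ℤ} {Q : Matrix (Fin 3) (Fin 3) ℝ} {ν : Fin 3 → ℝ}
    (h : EF α β (exp (N / 36)) γ Q ν) (hu : IsUnit γ.det)
    (hnu : ∀ ν : ℤ, (ν = 1 ∨ ν = -1) → (γ - ν • (1 : Matrix (Fin 3) (Fin 3) ℤ)).det ≠ 0)
    {p p' : ℝ × ℝ} (hp : Flat Q (1 / 100) p) (hp' : Flat Q (1 / 100) p')
    (hb : 0 ≤ p.1 ∧ 0 ≤ p.2) (hM : p.1 + p.2 ≤ 2 * M) (hMN : 2 * N ≤ M) :
    ¬ (p.1 = N / 4 ∧ p'.1 = N / 4 ∧ p.2 + 2 * N ≤ p'.2) ∧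
    ¬ (p.2 = N / 4 ∧ p'.2 = N / 4 ∧ p.1 + 2 * N ≤ p'.1) := by
  have hN := S.Npos
  have hbad := badly S.prod
  obtain ⟨-, x01, x02, -, -, x12, x21⟩ := X_entries α β γ
  have hB : 4 * exp (N / 36) ^ 4 ≤ exp (5 * N / 36) := by
    have h1 := S.E1000
    have h2 : exp (5 * N / 36) = exp (N / 36) * exp (N / 36) ^ 4 := by
      rw [← exp_nat_mul, ← exp_add]
      congr 1
      push_cast
      ring
    rw [h2]
    exact mul_le_mul_of_nonneg_right (by linarith) (by positivity)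
  have hfr := fun i j => (fr_le h hp i j).trans hB
  have hfr' := fun i j => (fr_le h hp' i j).trans hB
  constructor
  · rintro ⟨h1, h2, h3⟩
    have k01 := hfr 0 1
    have k21 := hfr' 2 1
    rw [fr_apply] at k01 k21
    have k01 := exp_bound' k01
    have k21 := exp_bound' k21
    rw [x01, abs_neg, wt_zero, wt_one] at k01
    rw [x21, wt_two, wt_one, show 5 * N / 36 - (p'.2 - p'.1) = -(p'.2 - p'.1 - 5 * N / 36) by ring]
      at k21
    obtain ⟨g0, g1⟩ := int_rel (M := M) S.E2 (fun q hq hqM p => (hbad q hq hqM p).2)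
      (by linarith [hb.1, hb.2]) (by linarith [hb.1, hb.2]) k01 k21 (by linarith [hb.1, hb.2])
    obtain ⟨d1, d2⟩ := det_col1 hu g0 g1
    exact hnu _ d1 d2
  · rintro ⟨h1, h2, h3⟩
    have k02 := hfr 0 2
    have k12 := hfr' 1 2
    rw [fr_apply] at k02 k12
    have k02 := exp_bound' k02
    have k12 := exp_bound' k12
    rw [x02, abs_neg, wt_zero, wt_two] at k02
    rw [x12, wt_two, wt_one, show 5 * N / 36 - (p'.1 - p'.2) = -(p'.1 - p'.2 - 5 * N / 36) by ring]
      at k12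
    obtain ⟨g0, g1⟩ := int_rel (M := M) S.E2 (fun q hq hqM p => (hbad q hq hqM p).1)
      (by linarith [hb.1, hb.2]) (by linarith [hb.1, hb.2]) k02 k12 (by linarith [hb.1, hb.2])
    obtain ⟨d1, d2⟩ := det_col2 hu g0 g1
    exact hnu _ d1 d2

end Pool.Agent.H6.LU
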