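import Pool.Agent.H6.LU.Defs

/-!
# A long polygon has a long edge

The set `T` of the `z` with `Flat Q ε z`, `b ≤ z.1`, `b ≤ z.2` is convex. One of
`g = z.1 - z.2`, `g = z.1 + z.2` changes by at least `12 F` from `z` to `z'`; correspondingly put
`d = (-1, -1)` or `d = (1, -1)`, so that `g` is constant in the direction `d`, and `z.1 + z.2` does
not increase. Take the nine points `q k = z + (k / 8) (z' - z)`, and let `p k = q k + τ d`, `τ ≥ 0`
maximal with `p k` in `T` (bounded because of `b ≤ z.2`). One of the eight constraints is an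
equality at `p k`; by the pigeonhole principle two of the points `p k` have the same one. Then `g`
differs by at least `3 F / 2` between them. If the constraint is `(i, j)` then `wt i - wt j` is
the same at both, and `|Δ g| ≤ 3 / 2 * |Δ wt l|`.
-/

open Real Matrix

namespace Pool.Agent.H6.LU

open Pool.Agent.H6.LW

lemma Poly_qq_add {Q : Matrix (Fin 3) (Fin 3) ℝ} (p d : ℝ × ℝ) (m n : Fin 3) :
    qq Q (p + d) m n = exp (wt d m - wt d n) * qq Q p m n := by
  unfold qq
  rw [wt_add, wt_add, ← mul_assoc, ← exp_add]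
  congr 2
  ring

lemma Poly_wt_sum (z : ℝ × ℝ) : wt z 0 + wt z 1 + wt z 2 = 0 := by
  simp

/-- the slacks of the eight constraints -/
noncomputable def Poly_sl (Q : Matrix (Fin 3) (Fin 3) ℝ) (ε b : ℝ) (k : Fin 8) (z : ℝ × ℝ) : ℝ :=
  ![ε - qq Q z 0 1, ε - qq Q z 0 2, ε - qq Q z 1 0, ε - qq Q z 1 2, ε - qq Q z 2 0,
    ε - qq Q z 2 1, z.1 - b, z.2 - b] k

lemma Poly_qq_cont (Q : Matrix (Fin 3) (Fin 3) ℝ) (i j : Fin 3) :
    Continuous (fun z : ℝ × ℝ => qq Q z i j) := by
  have h : ∀ i : Fin 3, Continuous (fun z : ℝ × ℝ => wt z i) := by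
    intro i
    fin_cases i
    · show Continuous (fun z : ℝ × ℝ => -(z.1 + z.2))
      fun_prop
    · show Continuous (fun z : ℝ × ℝ => z.1)
      fun_prop
    · show Continuous (fun z : ℝ × ℝ => z.2)
      fun_prop
  unfold qq
  exact (Real.continuous_exp.comp ((h i).sub (h j))).mul continuous_const

lemma Poly_sl_cont (Q : Matrix (Fin 3) (Fin 3) ℝ) (ε b : ℝ) (k : Fin 8) :
    Continuous (Poly_sl Q ε b k) := by
  fin_cases k
  · exact continuous_const.sub (Poly_qq_cont Q 0 1)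
  · exact continuous_const.sub (Poly_qq_cont Q 0 2)
  · exact continuous_const.sub (Poly_qq_cont Q 1 0)
  · exact continuous_const.sub (Poly_qq_cont Q 1 2)
  · exact continuous_const.sub (Poly_qq_cont Q 2 0)
  · exact continuous_const.sub (Poly_qq_cont Q 2 1)
  · exact continuous_fst.sub continuous_const
  · exact continuous_snd.sub continuous_const

lemma Poly_sl_iff {Q : Matrix (Fin 3) (Fin 3) ℝ} {ε b : ℝ} {z : ℝ × ℝ} :
    (∀ k, 0 ≤ Poly_sl Q ε b k z) ↔ Flat Q ε z ∧ b ≤ z.1 ∧ b ≤ z.2 := by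
  constructor
  · intro h
    have h0 : 0 ≤ ε - qq Q z 0 1 := h 0
    have h1 : 0 ≤ ε - qq Q z 0 2 := h 1
    have h2 : 0 ≤ ε - qq Q z 1 0 := h 2
    have h3 : 0 ≤ ε - qq Q z 1 2 := h 3
    have h4 : 0 ≤ ε - qq Q z 2 0 := h 4
    have h5 : 0 ≤ ε - qq Q z 2 1 := h 5
    have h6 : 0 ≤ z.1 - b := h 6
    have h7 : 0 ≤ z.2 - b := h 7
    refine ⟨?_, by linarith, by linarith⟩
    intro i j hij
    fin_cases i <;> fin_cases j <;> first | (exact absurd rfl hij) | (simp only [Fin.zero_eta, Fin.mk_one, Fin.reduceFinMk] ; linarith)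
  · rintro ⟨h, hb1, hb2⟩ k
    fin_cases k
    · exact sub_nonneg.mpr (h 0 1 (by decide))
    · exact sub_nonneg.mpr (h 0 2 (by decide))
    · exact sub_nonneg.mpr (h 1 0 (by decide))
    · exact sub_nonneg.mpr (h 1 2 (by decide))
    · exact sub_nonneg.mpr (h 2 0 (by decide))
    · exact sub_nonneg.mpr (h 2 1 (by decide))
    · exact sub_nonneg.mpr hb1
    · exact sub_nonneg.mpr hb2

/-- ray shooting -/
lemma Poly_ray {Q : Matrix (Fin 3) (Fin 3) ℝ} {ε b : ℝ} {q d : ℝ × ℝ} (hd : d.2 = -1)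
    (hq : ∀ k, 0 ≤ Poly_sl Q ε b k q) :
    ∃ τ : ℝ, 0 ≤ τ ∧ (∀ k, 0 ≤ Poly_sl Q ε b k (q + τ • d)) ∧
      ∃ k, Poly_sl Q ε b k (q + τ • d) = 0 := by
  set M : ℝ → ℝ := fun τ => (Finset.univ : Finset (Fin 8)).inf' ⟨0, Finset.mem_univ _⟩
    (fun k => Poly_sl Q ε b k (q + τ • d)) with hM
  have hcont : Continuous M := by
    apply Continuous.finset_inf'_apply
    intro k _
    exact (Poly_sl_cont Q ε b k).comp (by fun_prop)
  have hT : 0 ≤ q.2 - b := hq 7
  have h0 : 0 ≤ M 0 := by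
    apply Finset.le_inf'
    intro k _
    simpa using hq k
  have h1 : M (q.2 - b) ≤ 0 := by
    have := Finset.inf'_le (f := fun k => Poly_sl Q ε b k (q + (q.2 - b) • d))
      (Finset.mem_univ (7 : Fin 8))
    refine this.trans ?_
    show (q + (q.2 - b) • d).2 - b ≤ 0
    simp [hd]
  obtain ⟨τ, hτ, hMτ⟩ := intermediate_value_Icc' hT hcont.continuousOn ⟨h1, h0⟩
  refine ⟨τ, hτ.1, fun k => ?_, ?_⟩
  · have := Finset.inf'_le (f := fun k => Poly_sl Q ε b k (q + τ • d)) (Finset.mem_univ k)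
    rw [← hMτ]
    exact this
  · obtain ⟨k, _, hk⟩ := Finset.exists_mem_eq_inf' (⟨0, Finset.mem_univ _⟩ :
      (Finset.univ : Finset (Fin 8)).Nonempty) (fun k => Poly_sl Q ε b k (q + τ • d))
    exact ⟨k, by rw [← hk]; exact hMτ⟩

/-- convexity -/
theorem qq_segment {Q : Matrix (Fin 3) (Fin 3) ℝ} {m n : Fin 3} {κ t : ℝ} {z z' : ℝ × ℝ}
    (h : qq Q z m n ≤ κ) (h' : qq Q z' m n ≤ κ) (ht : 0 ≤ t) (ht1 : t ≤ 1) :
    qq Q (z + t • (z' - z)) m n ≤ κ := by
  have hw : ∀ i : Fin 3, wt (z + t • (z' - z)) i = (1 - t) * wt z i + t * wt z' i := by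
    intro i
    fin_cases i
    · show -((z + t • (z' - z)).1 + (z + t • (z' - z)).2) =
        (1 - t) * (-(z.1 + z.2)) + t * (-(z'.1 + z'.2))
      simp; ring
    · show (z + t • (z' - z)).1 = (1 - t) * z.1 + t * z'.1
      simp; ring
    · show (z + t • (z' - z)).2 = (1 - t) * z.2 + t * z'.2
      simp; ring
  unfold qq at *
  rw [hw, hw]
  rcases le_total (wt z m - wt z n) (wt z' m - wt z' n) with hle | hle
  · refine le_trans (mul_le_mul_of_nonneg_right (exp_le_exp.mpr ?_) (abs_nonneg _)) h'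
    nlinarith
  · refine le_trans (mul_le_mul_of_nonneg_right (exp_le_exp.mpr ?_) (abs_nonneg _)) h
    nlinarith

/-- a point at which an off-diagonal constraint is tight determines `wt i - wt j` -/
lemma Poly_tight {Q : Matrix (Fin 3) (Fin 3) ℝ} {ε : ℝ} (hε : 0 < ε) {i j : Fin 3} {p p' : ℝ × ℝ}
    (h : qq Q p i j = ε) (h' : qq Q p' i j = ε) :
    wt p i - wt p j = wt p' i - wt p' j := by
  unfold qq at h h'
  have hQ : |Q i j| ≠ 0 := by
    intro h0
    rw [h0, mul_zero] at h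
    exact hε.ne h
  have h2 : exp (wt p i - wt p j) = exp (wt p' i - wt p' j) :=
    mul_right_cancel₀ hQ (h.trans h'.symm)
  exact exp_injective h2

theorem exists_edge {Q : Matrix (Fin 3) (Fin 3) ℝ} {ε b F : ℝ} (hε : 0 < ε) (hF : 0 < F)
    {z z' : ℝ × ℝ} (h : Flat Q ε z) (h' : Flat Q ε z') (hb : b ≤ z.1 ∧ b ≤ z.2)
    (hb' : b ≤ z'.1 ∧ b ≤ z'.2) (hfar : 12 * F ≤ |z'.1 - z.1| ∨ 12 * F ≤ |z'.2 - z.2|) :
    ∃ p p' : ℝ × ℝ, Flat Q ε p ∧ Flat Q ε p' ∧ (b ≤ p.1 ∧ b ≤ p.2) ∧ (b ≤ p'.1 ∧ b ≤ p'.2) ∧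
      p.1 + p.2 ≤ max (z.1 + z.2) (z'.1 + z'.2) ∧ p'.1 + p'.2 ≤ max (z.1 + z.2) (z'.1 + z'.2) ∧
      ((∃ i j l : Fin 3, i ≠ j ∧ i ≠ l ∧ j ≠ l ∧ qq Q p i j = ε ∧ qq Q p' i j = ε ∧
          wt p' l ≤ wt p l - F) ∨
        (p.1 = b ∧ p'.1 = b ∧ p.2 + F ≤ p'.2) ∨ (p.2 = b ∧ p'.2 = b ∧ p.1 + F ≤ p'.1)) := by
  -- the direction: `g v = v.1 + s * v.2`, `d = (s, -1)`, `s = -1` or `s = 1`
  obtain ⟨s, hs, hg⟩ : ∃ s : ℝ, (s = 1 ∨ s = -1) ∧
      12 * F ≤ |(z'.1 + s * z'.2) - (z.1 + s * z.2)| := by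
    by_contra hcon
    push Not at hcon
    have h1 := hcon 1 (Or.inl rfl)
    have h2 := hcon (-1) (Or.inr rfl)
    rw [abs_lt] at h1 h2
    rcases hfar with hf | hf
    · have : |z'.1 - z.1| < 12 * F := by
        rw [abs_lt]; constructor <;> linarith [h1.1, h1.2, h2.1, h2.2]
      linarith
    · have : |z'.2 - z.2| < 12 * F := by
        rw [abs_lt]; constructor <;> linarith [h1.1, h1.2, h2.1, h2.2]
      linarith
  set d : ℝ × ℝ := (s, -1) with hd
  set q : Fin 9 → ℝ × ℝ := fun k => z + ((k : ℝ) / 8) • (z' - z) with hq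
  have hk0 : ∀ k : Fin 9, (0 : ℝ) ≤ (k : ℝ) / 8 := fun k => by positivity
  have hk1 : ∀ k : Fin 9, (k : ℝ) / 8 ≤ 1 := by
    intro k
    have : (k : ℕ) ≤ 8 := by omega
    have : (k : ℝ) ≤ 8 := by exact_mod_cast this
    linarith
  have hqT : ∀ k, ∀ c, 0 ≤ Poly_sl Q ε b c (q k) := by
    intro k
    rw [Poly_sl_iff]
    refine ⟨fun i j hij => qq_segment (h i j hij) (h' i j hij) (hk0 k) (hk1 k), ?_, ?_⟩
    · show b ≤ (z + ((k : ℝ) / 8) • (z' - z)).1
      have e : (z + ((k : ℝ) / 8) • (z' - z)).1 =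
        (1 - (k : ℝ) / 8) * z.1 + (k : ℝ) / 8 * z'.1 := by simp; ring
      rw [e]
      nlinarith [hk0 k, hk1 k, hb.1, hb'.1]
    · show b ≤ (z + ((k : ℝ) / 8) • (z' - z)).2
      have e : (z + ((k : ℝ) / 8) • (z' - z)).2 =
        (1 - (k : ℝ) / 8) * z.2 + (k : ℝ) / 8 * z'.2 := by simp; ring
      rw [e]
      nlinarith [hk0 k, hk1 k, hb.2, hb'.2]
  have hray := fun k => Poly_ray (Q := Q) (ε := ε) (b := b) (q := q k) (d := d) rfl (hqT k)
  choose τ hτ0 hτT c hc using hray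
  obtain ⟨k, k', hkk, hcc⟩ := Fintype.exists_ne_map_eq_of_card_lt c (by simp)
  -- both points
  have hsum : ∀ k, (q k + τ k • d).1 + (q k + τ k • d).2 ≤ max (z.1 + z.2) (z'.1 + z'.2) := by
    intro k
    have e1 : (q k + τ k • d).1 + (q k + τ k • d).2 =
        (1 - (k : ℝ) / 8) * (z.1 + z.2) + (k : ℝ) / 8 * (z'.1 + z'.2) + τ k * (s - 1) := by
      simp [hq, hd]; ring
    rw [e1]
    have h1 : τ k * (s - 1) ≤ 0 := by
      rcases hs with rfl | rfl
      · simp
      · nlinarith [hτ0 k]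
    have h2 := le_max_left (z.1 + z.2) (z'.1 + z'.2)
    have h3 := le_max_right (z.1 + z.2) (z'.1 + z'.2)
    nlinarith [hk0 k, hk1 k]
  have hgval : ∀ k, (q k + τ k • d).1 + s * (q k + τ k • d).2 =
      (z.1 + s * z.2) + (k : ℝ) / 8 * ((z'.1 + s * z'.2) - (z.1 + s * z.2)) := by
    intro k
    simp [hq, hd]; ring
  -- the difference of `g` at the two points
  have hdiff : 3 / 2 * F ≤ |((q k' + τ k' • d).1 + s * (q k' + τ k' • d).2) -
      ((q k + τ k • d).1 + s * (q k + τ k • d).2)| := by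
    rw [hgval, hgval]
    have e : (z.1 + s * z.2) + (k' : ℝ) / 8 * ((z'.1 + s * z'.2) - (z.1 + s * z.2)) -
        ((z.1 + s * z.2) + (k : ℝ) / 8 * ((z'.1 + s * z'.2) - (z.1 + s * z.2))) =
        ((k' : ℝ) - k) / 8 * ((z'.1 + s * z'.2) - (z.1 + s * z.2)) := by ring
    rw [e, abs_mul]
    have h1 : 1 / 8 ≤ |((k' : ℝ) - k) / 8| := by
      rw [abs_div, abs_of_pos (by norm_num : (0 : ℝ) < 8)]
      have h2 : (1 : ℝ) ≤ |(k' : ℝ) - k| := by
        have h3 : ((k' : ℕ) : ℤ) - (k : ℕ) ≠ 0 := by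
          intro h4
          apply hkk
          apply Fin.ext
          omega
        have h5 : (1 : ℤ) ≤ |((k' : ℕ) : ℤ) - (k : ℕ)| := Int.one_le_abs h3
        exact_mod_cast h5
      linarith [div_le_div_of_nonneg_right h2 (by norm_num : (0 : ℝ) ≤ 8)]
    calc 3 / 2 * F = 1 / 8 * (12 * F) := by ring
      _ ≤ |((k' : ℝ) - k) / 8| * |z'.1 + s * z'.2 - (z.1 + s * z.2)| :=
        mul_le_mul h1 hg (by positivity) (abs_nonneg _)
  -- WLOG-free statement for the two orders
  set p := q k + τ k • d with hp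
  set p' := q k' + τ k' • d with hp'
  obtain ⟨hfp, hbp⟩ := Poly_sl_iff.mp (hτT k)
  obtain ⟨hfp', hbp'⟩ := Poly_sl_iff.mp (hτT k')
  have hcp := hc k
  have hcp' := hc k'
  rw [← hcc] at hcp'
  have hsp := hsum k
  have hsp' := hsum k'
  rw [← hp] at hcp hfp hbp hsp
  rw [← hp'] at hcp' hfp' hbp' hsp'
  -- pair constraints
  have hpair : ∀ i j l : Fin 3, i ≠ j → i ≠ l → j ≠ l → qq Q p i j = ε → qq Q p' i j = ε →
      ∃ p p' : ℝ × ℝ, Flat Q ε p ∧ Flat Q ε p' ∧ (b ≤ p.1 ∧ b ≤ p.2) ∧ (b ≤ p'.1 ∧ b ≤ p'.2) ∧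
      p.1 + p.2 ≤ max (z.1 + z.2) (z'.1 + z'.2) ∧ p'.1 + p'.2 ≤ max (z.1 + z.2) (z'.1 + z'.2) ∧
      ((∃ i j l : Fin 3, i ≠ j ∧ i ≠ l ∧ j ≠ l ∧ qq Q p i j = ε ∧ qq Q p' i j = ε ∧
          wt p' l ≤ wt p l - F) ∨
        (p.1 = b ∧ p'.1 = b ∧ p.2 + F ≤ p'.2) ∨ (p.2 = b ∧ p'.2 = b ∧ p.1 + F ≤ p'.1)) := by
    intro i j l hij hil hjl h1 h2
    have hw := Poly_tight hε h1 h2
    have hwl : F ≤ |wt p' l - wt p l| := by
      have key : |(p'.1 + s * p'.2) - (p.1 + s * p.2)| ≤ 3 / 2 * |wt p' l - wt p l| := by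
        have hcase : (p'.1 - p.1 = -(wt p' l - wt p l) / 2 ∧ p'.2 - p.2 = -(wt p' l - wt p l) / 2) ∨
            (p'.1 - p.1 = wt p' l - wt p l ∧ p'.2 - p.2 = -(wt p' l - wt p l) / 2) ∨
            (p'.1 - p.1 = -(wt p' l - wt p l) / 2 ∧ p'.2 - p.2 = wt p' l - wt p l) := by
          fin_cases i <;> fin_cases j <;> fin_cases l <;>
            first
              | exact absurd rfl hij
              | exact absurd rfl hil
              | exact absurd rfl hjl
              | (simp only [Fin.zero_eta, Fin.mk_one, Fin.reduceFinMk, wt_zero, wt_one,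
                  wt_two] at hw ⊢
                 first
                  | (left; constructor <;> first | trivial | linarith)
                  | (right; left; constructor <;> first | trivial | linarith)
                  | (right; right; constructor <;> first | trivial | linarith))
        obtain ⟨κ, hκ, hκe⟩ : ∃ κ : ℝ, |κ| ≤ 3 / 2 ∧
            (p'.1 + s * p'.2) - (p.1 + s * p.2) = κ * (wt p' l - wt p l) := by
          rcases hcase with ⟨h3, h4⟩ | ⟨h3, h4⟩ | ⟨h3, h4⟩ <;> rcases hs with rfl | rfl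
          · exact ⟨-1, by norm_num, by linarith⟩
          · exact ⟨0, by norm_num, by linarith⟩
          · exact ⟨1 / 2, by rw [abs_of_pos] <;> norm_num, by linarith⟩
          · exact ⟨3 / 2, by rw [abs_of_pos] <;> norm_num, by linarith⟩
          · exact ⟨1 / 2, by rw [abs_of_pos] <;> norm_num, by linarith⟩
          · exact ⟨-(3 / 2), by rw [abs_neg, abs_of_pos] <;> norm_num, by linarith⟩
        rw [hκe, abs_mul]
        exact mul_le_mul_of_nonneg_right hκ (abs_nonneg _)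
      nlinarith
    rcases le_total (wt p' l) (wt p l) with hle | hle
    · rw [abs_of_nonpos (by linarith)] at hwl
      exact ⟨p, p', hfp, hfp', hbp, hbp', hsp, hsp', Or.inl ⟨i, j, l, hij, hil, hjl, h1, h2,
        by linarith⟩⟩
    · rw [abs_of_nonneg (by linarith)] at hwl
      exact ⟨p', p, hfp', hfp, hbp', hbp, hsp', hsp, Or.inl ⟨i, j, l, hij, hil, hjl, h2, h1,
        by linarith⟩⟩
  generalize c k = ck at hcp hcp'
  fin_cases ck
  · exact hpair 0 1 2 (by decide) (by decide) (by decide)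
      (by have : ε - qq Q p 0 1 = 0 := hcp
          linarith) (by have : ε - qq Q p' 0 1 = 0 := hcp'
                        linarith)
  · exact hpair 0 2 1 (by decide) (by decide) (by decide)
      (by have : ε - qq Q p 0 2 = 0 := hcp
          linarith) (by have : ε - qq Q p' 0 2 = 0 := hcp'
                        linarith)
  · exact hpair 1 0 2 (by decide) (by decide) (by decide)
      (by have : ε - qq Q p 1 0 = 0 := hcp
          linarith) (by have : ε - qq Q p' 1 0 = 0 := hcp'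
                        linarith)
  · exact hpair 1 2 0 (by decide) (by decide) (by decide)
      (by have : ε - qq Q p 1 2 = 0 := hcp
          linarith) (by have : ε - qq Q p' 1 2 = 0 := hcp'
                        linarith)
  · exact hpair 2 0 1 (by decide) (by decide) (by decide)
      (by have : ε - qq Q p 2 0 = 0 := hcp
          linarith) (by have : ε - qq Q p' 2 0 = 0 := hcp'
                        linarith)
  · exact hpair 2 1 0 (by decide) (by decide) (by decide)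
      (by have : ε - qq Q p 2 1 = 0 := hcp
          linarith) (by have : ε - qq Q p' 2 1 = 0 := hcp'
                        linarith)
  · have e1 : p.1 - b = 0 := hcp
    have e2 : p'.1 - b = 0 := hcp'
    have h3 : F ≤ |p'.2 - p.2| := by
      have h4 : |(p'.1 + s * p'.2) - (p.1 + s * p.2)| = |p'.2 - p.2| := by
        have e : (p'.1 + s * p'.2) - (p.1 + s * p.2) = s * (p'.2 - p.2) := by
          have : p'.1 = p.1 := by linarith
          rw [this]; ring
        rw [e, abs_mul]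
        rcases hs with rfl | rfl <;> simp
      rw [h4] at hdiff
      linarith
    rcases le_total p.2 p'.2 with hle | hle
    · rw [abs_of_nonneg (by linarith)] at h3
      exact ⟨p, p', hfp, hfp', hbp, hbp', hsp, hsp', Or.inr (Or.inl ⟨by linarith, by linarith,
        by linarith⟩)⟩
    · rw [abs_of_nonpos (by linarith)] at h3
      exact ⟨p', p, hfp', hfp, hbp', hbp, hsp', hsp, Or.inr (Or.inl ⟨by linarith, by linarith,
        by linarith⟩)⟩
  · have e1 : p.2 - b = 0 := hcp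
    have e2 : p'.2 - b = 0 := hcp'
    have h3 : F ≤ |p'.1 - p.1| := by
      have e : (p'.1 + s * p'.2) - (p.1 + s * p.2) = p'.1 - p.1 := by
        have : p'.2 = p.2 := by linarith
        rw [this]; ring
      rw [e] at hdiff
      linarith
    rcases le_total p.1 p'.1 with hle | hle
    · rw [abs_of_nonneg (by linarith)] at h3
      exact ⟨p, p', hfp, hfp', hbp, hbp', hsp, hsp', Or.inr (Or.inr ⟨by linarith, by linarith,
        by linarith⟩)⟩
    · rw [abs_of_nonpos (by linarith)] at h3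
      exact ⟨p', p, hfp', hfp, hbp', hbp, hsp', hsp, Or.inr (Or.inr ⟨by linarith, by linarith,
        by linarith⟩)⟩

lemma Poly_shift_wt (i j : Fin 3) (hij : i ≠ j) (lam : ℝ) : ∃ d : ℝ × ℝ,
    ∀ m, wt d m = lam * ((if m = i then 1 else 0) - (if m = j then 1 else 0)) := by
  refine ⟨(lam * ((if (1 : Fin 3) = i then 1 else 0) - (if (1 : Fin 3) = j then 1 else 0)),
    lam * ((if (2 : Fin 3) = i then 1 else 0) - (if (2 : Fin 3) = j then 1 else 0))), fun m => ?_⟩
  fin_cases m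
  · simp only [Fin.zero_eta, wt_zero]
    fin_cases i <;> fin_cases j <;> simp_all
  · simp only [Fin.mk_one, wt_one]
  · simp only [Fin.reduceFinMk, wt_two]

/-- moving an edge from level `e ^ 2` to level `1` -/
theorem shift_edge {Q : Matrix (Fin 3) (Fin 3) ℝ} {e : ℝ} (he : 0 < e) (he1 : e ≤ 1)
    {i j l : Fin 3} (hij : i ≠ j) (hil : i ≠ l) (hjl : j ≠ l) :
    ∃ d : ℝ × ℝ, |d.1| ≤ -log e ∧ |d.2| ≤ -log e ∧ |d.1 + d.2| ≤ -log e ∧ wt d l = 0 ∧
      ∀ p : ℝ × ℝ, Flat Q (e ^ 2) p → qq Q p i j = e ^ 2 → qq Q (p + d) i j = 1 ∧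
        ∀ m n, m ≠ n → ¬ (m = i ∧ n = j) → qq Q (p + d) m n ≤ e := by
  have hlam : 0 ≤ -log e := by
    have := log_nonpos he.le he1
    linarith
  obtain ⟨d, hd⟩ := Poly_shift_wt i j hij (-log e)
  have hbd : ∀ m, |wt d m| ≤ -log e := by
    intro m
    rw [hd m, abs_mul, abs_of_nonneg hlam]
    have : |((if m = i then (1 : ℝ) else 0) - (if m = j then 1 else 0))| ≤ 1 := by
      by_cases h1 : m = i <;> by_cases h2 : m = j <;> simp [h1, h2, hij, hij.symm]
    nlinarith
  refine ⟨d, hbd 1, hbd 2, ?_, ?_, fun p hp hpij => ⟨?_, fun m n hmn hne => ?_⟩⟩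
  · have := hbd 0
    rw [wt_zero, abs_neg] at this
    exact this
  · rw [hd l]
    simp [hil.symm, hjl.symm]
  · rw [Poly_qq_add, hpij, hd i, hd j]
    simp only [if_true, hij, hij.symm, if_false]
    have e1 : -log e * (1 - 0) - -log e * (0 - 1) = -(2 * log e) := by ring
    rw [e1, Real.exp_neg, two_mul, Real.exp_add, Real.exp_log he]
    field_simp
  · rw [Poly_qq_add]
    have h1 : wt d m - wt d n ≤ -log e := by
      rw [hd m, hd n]
      have h2 : ((if m = i then (1 : ℝ) else 0) - (if m = j then 1 else 0)) -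
          ((if n = i then (1 : ℝ) else 0) - (if n = j then 1 else 0)) ≤ 1 := by
        by_cases a1 : m = i
        · have a2 : n ≠ j := fun h => hne ⟨a1, h⟩
          by_cases a3 : n = i
          · exact absurd (a1.trans a3.symm) hmn
          · by_cases a4 : m = j <;> simp [a1, a2, a3, hij]
        · by_cases a2 : n = j
          · by_cases a3 : m = j
            · exact absurd (a3.trans a2.symm) hmn
            · have a4 : j ≠ i := hij.symm
              simp [a1, a2, a3, a4]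
          · by_cases a3 : m = j <;> by_cases a4 : n = i <;> simp [a1, a2, a3, a4, hij, hij.symm] <;> norm_num
      nlinarith
    have h3 := hp m n hmn
    calc exp (wt d m - wt d n) * qq Q p m n ≤ exp (-log e) * e ^ 2 := by
          apply mul_le_mul (exp_le_exp.mpr h1) h3 _ (exp_pos _).le
          unfold qq
          positivity
      _ = e := by
          rw [Real.exp_neg, Real.exp_log he]
          field_simp

end Pool.Agent.H6.LU
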