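import Pool.Agent.H6.LU.Defs

/-!
# The two nearly equal eigenvalues are not too close

`trI w`, `secI w`, `w.det = 1` are the elementary symmetric functions of `ω` (conjugate by `H Q`;
`trace_fr`, `sec_eq` of `LW/Near.lean` are similar). The discriminant `disc (trI w) (secI w) 1` is
an integer, and it is `((ω 0 - ω 1) (ω 0 - ω 2) (ω 1 - ω 2))²` by `disc_roots`. If it is `0` then by
`disc_zero` all roots are `1` or `-1`, but `ω l > 1`. So the product of the three differences is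
at least `1` in absolute value, two of them are at most `exp G`, hence
`exp (-2 G) ≤ |ω i - ω j| ≤ exp G * 2 * |log (ω i) - log (ω j)|`.
-/

open Real Matrix

namespace Pool.Agent.H6.LU

open Pool.Agent.H6.LW

/-- trace, second invariant and determinant from the eigenvalues -/
lemma Theta_inv {α β : ℝ} {Q : Matrix (Fin 3) (Fin 3) ℝ} {w : Matrix (Fin 3) (Fin 3) ℤ}
    {ω : Fin 3 → ℝ} (hQ : Q.det ≠ 0) (h : hg α β w * Q = Q * Matrix.diagonal ω) :
    (trI w : ℝ) = ω 0 + ω 1 + ω 2 ∧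
      (secI w : ℝ) = ω 0 * ω 1 + ω 0 * ω 2 + ω 1 * ω 2 ∧ (w.det : ℝ) = ω 0 * ω 1 * ω 2 := by
  have hu : IsUnit Q.det := isUnit_iff_ne_zero.2 hQ
  have h1 : Q⁻¹ * Q = 1 := Matrix.nonsing_inv_mul _ hu
  have h2 : Q * Q⁻¹ = 1 := Matrix.mul_nonsing_inv _ hu
  have e : hg α β w = Q * Matrix.diagonal ω * Q⁻¹ := by
    rw [← h, Matrix.mul_assoc, h2, Matrix.mul_one]
  have hH := H_mul_H α β
  have t1 : (hg α β w).trace = (rm w).trace := by
    unfold hg
    rw [Matrix.trace_mul_comm, ← Matrix.mul_assoc, hH, Matrix.one_mul]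
  have t2 : (hg α β w * hg α β w).trace = (rm w * rm w).trace := by
    have : hg α β w * hg α β w = H α β * (rm w * rm w) * H α β := by
      unfold hg
      calc H α β * rm w * H α β * (H α β * rm w * H α β) =
          H α β * rm w * (H α β * H α β) * (rm w * H α β) := by simp only [Matrix.mul_assoc]
        _ = _ := by rw [hH, Matrix.mul_one]; simp only [Matrix.mul_assoc]
    rw [this, Matrix.trace_mul_comm, ← Matrix.mul_assoc, hH, Matrix.one_mul]
  have t3 : (hg α β w).det = (rm w).det := by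
    unfold hg
    rw [Matrix.det_mul, Matrix.det_mul]
    have : (H α β).det * (H α β).det = 1 := by rw [← Matrix.det_mul, hH, Matrix.det_one]
    linear_combination (rm w).det * this
  have s1 : (hg α β w).trace = ω 0 + ω 1 + ω 2 := by
    rw [e, Matrix.trace_mul_comm, ← Matrix.mul_assoc, h1, Matrix.one_mul, Matrix.trace_diagonal,
      Fin.sum_univ_three]
  have s2 : (hg α β w * hg α β w).trace = ω 0 ^ 2 + ω 1 ^ 2 + ω 2 ^ 2 := by
    have : hg α β w * hg α β w = Q * (Matrix.diagonal ω * Matrix.diagonal ω) * Q⁻¹ := by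
      rw [e]
      calc Q * Matrix.diagonal ω * Q⁻¹ * (Q * Matrix.diagonal ω * Q⁻¹) =
          Q * Matrix.diagonal ω * (Q⁻¹ * Q) * (Matrix.diagonal ω * Q⁻¹) := by
            simp only [Matrix.mul_assoc]
        _ = _ := by rw [h1, Matrix.mul_one]; simp only [Matrix.mul_assoc]
    rw [this, Matrix.trace_mul_comm, ← Matrix.mul_assoc, h1, Matrix.one_mul,
      Matrix.diagonal_mul_diagonal, Matrix.trace_diagonal, Fin.sum_univ_three]
    ring
  have s3 : (hg α β w).det = ω 0 * ω 1 * ω 2 := by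
    have h4 := congrArg Matrix.det h
    rw [Matrix.det_mul, Matrix.det_mul, Matrix.det_diagonal, Fin.prod_univ_three] at h4
    have h5 : ((hg α β w).det - ω 0 * ω 1 * ω 2) * Q.det = 0 := by linear_combination h4
    rcases mul_eq_zero.1 h5 with h6 | h6
    · linarith
    · exact absurd h6 hQ
  refine ⟨?_, ?_, ?_⟩
  · rw [← s1, t1, trace_three]
    simp [trI, rm]
  · have h7 : (secI w : ℝ) = ((rm w).trace ^ 2 - (rm w * rm w).trace) / 2 := by
      rw [← sec_eq]
      simp [secI, rm]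
    rw [h7, ← t1, ← t2, s1, s2]
    ring
  · rw [← det_rm, ← t3, s3]

lemma Theta_perm (ω : Fin 3 → ℝ) {i j l : Fin 3} (hij : i ≠ j) (hil : i ≠ l) (hjl : j ≠ l) :
    |ω i - ω j| * |ω i - ω l| * |ω j - ω l| =
      |(ω 0 - ω 1) * (ω 0 - ω 2) * (ω 1 - ω 2)| := by
  rw [abs_mul, abs_mul]
  have h01 := abs_sub_comm (ω 0) (ω 1)
  have h02 := abs_sub_comm (ω 0) (ω 2)
  have h12 := abs_sub_comm (ω 1) (ω 2)
  fin_cases i <;> fin_cases j <;> fin_cases l <;>
    first
    | exact absurd rfl hij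
    | exact absurd rfl hil
    | exact absurd rfl hjl
    | (simp only [Fin.zero_eta, Fin.mk_one, Fin.reduceFinMk, h01, h02, h12] <;> ring)

theorem theta_low {α β G : ℝ} {Q : Matrix (Fin 3) (Fin 3) ℝ} {w : Matrix (Fin 3) (Fin 3) ℤ}
    {ω : Fin 3 → ℝ} (hQ : Q.det ≠ 0) (h : IsU α β Q w ω) {i j l : Fin 3} (hij : i ≠ j)
    (hil : i ≠ l) (hjl : j ≠ l) (hl : 1 < ω l) (hG : ∀ m, |log (ω m)| ≤ G)
    (h1 : |log (ω i) - log (ω j)| ≤ 1) :
    exp (-(3 * G)) / 2 ≤ |log (ω i) - log (ω j)| := by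
  obtain ⟨hA, hB, hC⟩ := Theta_inv hQ h.eig
  rw [h.prod] at hC
  have hdet : w.det = 1 := by exact_mod_cast hC
  have hω : ∀ m, ω m ≤ exp G := fun m => by
    rw [← exp_log (h.pos m)]
    exact exp_le_exp.2 ((le_abs_self _).trans (hG m))
  -- the discriminant is a nonzero integer
  have hdisc : ((disc (trI w) (secI w) 1 : ℤ) : ℝ) =
      ((ω 0 - ω 1) * (ω 0 - ω 2) * (ω 1 - ω 2)) ^ 2 := by
    rw [← disc_roots, ← hA, ← hB, h.prod]
    unfold disc
    push_cast
    ring
  have hne : disc (trI w) (secI w) 1 ≠ 0 := by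
    intro h0
    obtain ⟨ρ, σ, hρ, hσ, hA', hB', hC'⟩ := disc_zero (Or.inl rfl) h0
    have hroot : (ω l - ω 0) * (ω l - ω 1) * (ω l - ω 2) = 0 := by
      fin_cases l <;> simp
    have e : (ω l - ω 0) * (ω l - ω 1) * (ω l - ω 2) = (ω l - ρ) ^ 2 * (ω l - σ) := by
      have e1 : (ω l - ω 0) * (ω l - ω 1) * (ω l - ω 2) =
          ω l ^ 3 - (ω 0 + ω 1 + ω 2) * ω l ^ 2 + (ω 0 * ω 1 + ω 0 * ω 2 + ω 1 * ω 2) * ω l -
            ω 0 * ω 1 * ω 2 := by ring
      have hCr : (1 : ℝ) = (ρ : ℝ) ^ 2 * σ := by exact_mod_cast hC'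
      rw [e1, ← hA, ← hB, h.prod, hA', hB', hCr]
      push_cast
      ring
    rw [e] at hroot
    have hbound : ∀ τ : ℤ, (τ = 1 ∨ τ = -1) → 0 < ω l - τ := by
      intro τ hτ
      rcases hτ with h | h <;> rw [h] <;> push_cast <;> linarith
    have := hbound ρ hρ
    have := hbound σ hσ
    have : 0 < (ω l - ρ) ^ 2 * (ω l - σ) := by positivity
    linarith
  have hone : 1 ≤ |(ω 0 - ω 1) * (ω 0 - ω 2) * (ω 1 - ω 2)| := by
    rw [← one_le_sq_iff_one_le_abs, ← hdisc]
    have h0 : 0 ≤ ((disc (trI w) (secI w) 1 : ℤ) : ℝ) := by rw [hdisc]; positivity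
    have h0' : 0 ≤ disc (trI w) (secI w) 1 := by exact_mod_cast h0
    have : 1 ≤ disc (trI w) (secI w) 1 := by omega
    exact_mod_cast this
  rw [← Theta_perm ω hij hil hjl] at hone
  have hd : ∀ a b, |ω a - ω b| ≤ exp G := fun a b => by
    rw [abs_le]
    constructor
    · linarith [h.pos a, hω b]
    · linarith [h.pos b, hω a]
  have hE := exp_pos G
  have h2 : 1 ≤ |ω i - ω j| * exp G * exp G := by
    refine hone.trans ?_
    refine mul_le_mul (mul_le_mul_of_nonneg_left (hd i l) (abs_nonneg _)) (hd j l)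
      (abs_nonneg _) (by positivity)
  have h3 : |ω i - ω j| ≤ exp G * (2 * |log (ω i) - log (ω j)|) := by
    have e1 : ω i - ω j = ω j * (exp (log (ω i) - log (ω j)) - 1) := by
      rw [exp_sub, exp_log (h.pos i), exp_log (h.pos j)]
      have := (h.pos j).ne'
      field_simp
    rw [e1, abs_mul, abs_of_pos (h.pos j)]
    exact mul_le_mul (hω j) (Real.abs_exp_sub_one_le h1) (abs_nonneg _) hE.le
  have h4 : 1 ≤ exp (3 * G) * (2 * |log (ω i) - log (ω j)|) := by
    have e3 : exp (3 * G) = exp G * exp G * exp G := by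
      rw [← exp_add, ← exp_add]; congr 1; ring
    rw [e3]
    calc (1 : ℝ) ≤ |ω i - ω j| * exp G * exp G := h2
      _ ≤ exp G * (2 * |log (ω i) - log (ω j)|) * exp G * exp G := by
          refine mul_le_mul_of_nonneg_right (mul_le_mul_of_nonneg_right h3 hE.le) hE.le
      _ = _ := by ring
  rw [exp_neg, div_le_iff₀ (by norm_num), inv_le_iff_one_le_mul₀ (exp_pos _)]
  linarith

end Pool.Agent.H6.LU
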