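import Pool.Agent.H6.LU.Eig
import Pool.Agent.H6.LU.Good
import Pool.Agent.H6.LU.Theta
import Pool.Agent.H6.LU.Edge
import Pool.Agent.H6.LU.Poly
import Pool.Agent.H6.LU.Inner

/-!
# Chains of near returns are bounded

The polygon around a long chain of near returns has a long edge (`exists_edge`), which is excluded
by `inner_false` and `edge_false`.
-/

open Real Matrix

namespace Pool.Agent.H6.LU

open Pool.Agent.H6.LW

/-- the local facts in the region `z.1 + z.2 ≤ 3 M` -/
theorem exists_loc {c : ℝ} (hc : 0 < c) :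
    ∃ C₀ δ C : ℝ, 0 ≤ C₀ ∧ 1 ≤ C ∧ ∀ α β M : ℝ, C₀ ≤ M →
      LowUpTo α β c (exp (4 * M)) →
        ∀ z : ℝ × ℝ, 0 ≤ z.1 → 0 ≤ z.2 → z.1 + z.2 ≤ 3 * M → Loc α β δ C z := by
  set δ := min 1 c with hδ
  have hδ0 : 0 < δ := by positivity
  have hδ1 : δ ≤ 1 := min_le_left _ _
  set K := 200 / δ ^ 2 with hK
  have hδ2 : δ ^ 2 ≤ 1 := by nlinarith
  have hK200 : 200 ≤ K := by
    rw [hK, le_div_iff₀ (by positivity)]; nlinarith
  have hK1 : 1 ≤ K ^ 3 := one_le_pow₀ (by linarith)
  have hlogK0 : 0 ≤ log K := log_nonneg (by linarith)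
  refine ⟨2 * log K, δ, K ^ 3, by linarith, hK1, ?_⟩
  intro α β M hM hlow z hz1 hz2 hz
  refine ⟨fun v hv => delta_low hc hlow v hv z hz1 hz2 (exp_le_exp.2 (by linarith)), ?_⟩
  intro a ha
  refine exists_short hδ0 hδ1 hz1 hz2 (fun v hv => ?_) ha
  refine delta_low hc hlow v hv _ ?_ ?_ (exp_le_exp.2 ?_)
  · rw [Prod.fst_add]; simp only; linarith
  · rw [Prod.snd_add]; simp only; linarith
  · rw [Prod.fst_add, Prod.snd_add]; simp only; linarith

/-- `γ 0` in all frames of a chain of near returns -/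
lemma chain_off' {α β N M δ C c : ℝ} (S : Setup α β N M δ C c) {p : ℕ → ℝ × ℝ}
    (hp : IsChain (N / 8) p) {γ : ℕ → Matrix (Fin 3) (Fin 3) ℤ} {m : ℕ}
    (hpM : ∀ n, n ≤ m → InRegion N M (p n))
    (h : ∀ n, n ≤ m → NearReturn α β N (p n) (γ n)) :
    ∀ i j, i ≠ j → |fr α β (mid N (p m)) (rm (γ 0)) i j| ≤ 32 / exp (N / 36) ^ 9 := by
  have hN := S.Npos
  have hnear : ∀ n, n ≤ m → NearRet α β ((exp (N / 36) ^ 21)⁻¹) (exp (N / 36) ^ 4)
      (mid N (p n)) (γ n) := fun n hn =>
    (h n hn).near S.Npos S.E1000 (by simp only [mid]; linarith)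
      (by simp only [mid]; linarith) (by simp only [mid]; linarith) (by simp only [mid]; linarith)
  have hnear' : ∀ n, n < m → NearRet α β ((exp (N / 36) ^ 21)⁻¹) (exp (N / 36) ^ 4)
      (mid N (p (n + 1))) (γ n) := by
    intro n hn
    have h1 := (hp n).1
    have h2 := (hp n).2
    rw [abs_le] at h1 h2
    exact (h n hn.le).near S.Npos S.E1000 (by simp only [mid]; linarith [h1.1, h1.2])
      (by simp only [mid]; linarith [h1.1, h1.2]) (by simp only [mid]; linarith [h2.1, h2.2])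
      (by simp only [mid]; linarith [h2.1, h2.2])
  have hcomm := comm_all (z := fun n => mid N (p n)) (γ := γ) (n₀ := m)
    (fun n hn => S.mid (hpM n hn)) S.E1000 S.E1 hnear hnear' m le_rfl
  have hd : ∀ i, |fr α β (mid N (p m)) (rm (γ 0)) i i| ≤ exp (N / 36) ^ 4 := by
    intro i
    have := (hnear 0 (Nat.zero_le _)).diag i
    rw [fr_diag] at this ⊢
    exact this
  exact off_small S.E1000 (hnear m le_rfl) hd hcomm

/-- numerical conditions on `N` -/
structure Large (N C e : ℝ) : Prop where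
  E5 : 100000 ≤ exp (N / 36)
  e2 : 2 / e ≤ exp (N / 36)
  e3 : 1024 / exp (N / 36) ≤ e ^ 2
  b : 300 * C < exp (N / 4 + log e)

theorem exists_large (C e : ℝ) (he : 0 < e) : ∃ C₀ : ℝ, 0 < C₀ ∧ ∀ N, C₀ ≤ N → Large N C e := by
  have h : ∀ᶠ N : ℝ in Filter.atTop, Large N C e ∧ 0 < N := by
    have t1 : Filter.Tendsto (fun N : ℝ => exp (N / 36)) Filter.atTop Filter.atTop :=
      tendsto_exp_atTop.comp (Filter.tendsto_id.atTop_div_const (by norm_num))
    have t2 : Filter.Tendsto (fun N : ℝ => exp (N / 4 + log e)) Filter.atTop Filter.atTop :=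
      tendsto_exp_atTop.comp
        (Filter.tendsto_atTop_add_const_right _ _ (Filter.tendsto_id.atTop_div_const (by norm_num)))
    filter_upwards [t1.eventually_ge_atTop 100000, t1.eventually_ge_atTop (2 / e),
      t1.eventually_ge_atTop (1024 / e ^ 2), t2.eventually_gt_atTop (300 * C),
      Filter.eventually_gt_atTop 0] with N h1 h2 h3 h4 h5
    refine ⟨⟨h1, h2, ?_, h4⟩, h5⟩
    rw [div_le_iff₀ (by positivity)] at h3 ⊢
    linarith
  obtain ⟨C₀, hC₀⟩ := Filter.eventually_atTop.1 h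
  exact ⟨max C₀ 1, by positivity, fun N hN => (hC₀ N ((le_max_left _ _).trans hN)).1⟩

/-- the long distance beats everything -/
lemma big_dist {N E : ℝ} (hE : E = exp (N / 36)) (h : 100000 ≤ E) :
    4 * exp (3 * E ^ 63) * E ^ 63 ≤ exp (exp (2 * N)) / 12 ∧
      2 * N ≤ exp (exp (2 * N)) / 12 := by
  have hE0 : 0 < E := by linarith
  have hE1 : 1 ≤ E := by linarith
  have e1 : exp (2 * N) = E ^ 72 := by
    rw [hE, ← exp_nat_mul]; congr 1; push_cast; ring
  have hx1 : E ≤ E ^ 63 := by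
    calc E = E ^ 1 := (pow_one E).symm
      _ ≤ E ^ 63 := pow_le_pow_right₀ hE1 (by norm_num)
  set x := E ^ 63 with hx
  have hx0 : 0 < x := by positivity
  have h5 : 5 * x ≤ E ^ 72 := by
    have : E ^ 72 = E ^ 9 * x := by rw [hx]; ring
    rw [this]
    have h9 : (5 : ℝ) ≤ E ^ 9 := by
      calc (5 : ℝ) ≤ E ^ 1 := by linarith
        _ ≤ E ^ 9 := pow_le_pow_right₀ hE1 (by norm_num)
    exact mul_le_mul_of_nonneg_right h9 hx0.le
  have hxe : x + 1 ≤ exp x := add_one_le_exp x
  constructor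
  · rw [le_div_iff₀ (by norm_num), e1]
    have h1 : exp (5 * x) ≤ exp (E ^ 72) := exp_le_exp.2 h5
    have h2 : exp (5 * x) = exp (3 * x) * (exp x * exp x) := by
      rw [← exp_add, ← exp_add]; congr 1; ring
    have h3 : 48 * x ≤ exp x * exp x := by
      have h4 : 48 ≤ exp x := by linarith
      exact mul_le_mul h4 (by linarith) hx0.le (exp_pos _).le
    calc 4 * exp (3 * x) * x * 12 = exp (3 * x) * (48 * x) := by ring
      _ ≤ exp (3 * x) * (exp x * exp x) := mul_le_mul_of_nonneg_left h3 (exp_pos _).le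
      _ = exp (5 * x) := h2.symm
      _ ≤ _ := h1
  · rw [le_div_iff₀ (by norm_num)]
    set y := exp (2 * N) with hy
    have hy1 : 100000 ≤ y := by
      rw [e1]
      calc (100000 : ℝ) ≤ E ^ 1 := by linarith
        _ ≤ E ^ 72 := pow_le_pow_right₀ hE1 (by norm_num)
    have h2N : 2 * N ≤ y := by
      have := add_one_le_exp (2 * N)
      linarith
    have h3 := quadratic_le_exp_of_nonneg (show 0 ≤ y by linarith)
    nlinarith

theorem chain_bounded {α β N M δ C c δ' C' e : ℝ} (S : Setup α β N M δ C c)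
    (hloc : ∀ z : ℝ × ℝ, 0 ≤ z.1 → 0 ≤ z.2 → z.1 + z.2 ≤ 3 * M → Loc α β δ' C' z)
    (he : 0 < e) (he1 : e ≤ 1 / 10) (hC' : 1 ≤ C') (hec : 20000000 * e * C' ^ 3 < c)
    (L : Large N C' e) {p : ℕ → ℝ × ℝ} (hp : IsChain (N / 8) p) (m : ℕ)
    (hpM : ∀ n, n ≤ m → InRegion N M (p n))
    (hfar : exp (exp (2 * N)) ≤ |(p m).1 - (p 0).1| ∨
      exp (exp (2 * N)) ≤ |(p m).2 - (p 0).2|) : ∃ n, n ≤ m ∧ Good α β N (p n) := by
  by_contra hno
  unfold Good at hno
  push Not at hno
  choose! G hG using hno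
  have hN := S.Npos
  set E := exp (N / 36) with hE
  obtain ⟨hbig1, hbig2⟩ := big_dist hE L.E5
  have hE1000 : 1000 ≤ E := by linarith [L.E5]
  have hp0 := hpM 0 (Nat.zero_le _)
  have hpm := hpM m le_rfl
  -- the region is large
  have hMN : 2 * N ≤ M := by
    have h24 : 24 * N ≤ exp (exp (2 * N)) := by linarith
    rcases hfar with h | h
    · have h1 : |(p m).1 - (p 0).1| ≤ M - N := by
        rw [abs_le]; constructor <;> linarith [hp0.1.1, hp0.1.2, hpm.1.1, hpm.1.2]
      linarith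
    · have h1 : |(p m).2 - (p 0).2| ≤ M - N := by
        rw [abs_le]; constructor <;> linarith [hp0.2.1, hp0.2.2, hpm.2.1, hpm.2.2]
      linarith
  have hlogE : log E = N / 36 := by rw [hE, log_exp]
  have hloge : -log e ≤ N / 36 := by
    have h1 : 1 / e ≤ E := by
      have : 1 / e ≤ 2 / e := div_le_div_of_nonneg_right (by norm_num) he.le
      exact this.trans L.e2
    have h2 := log_le_log (by positivity) h1
    rw [one_div, log_inv, hlogE] at h2
    exact h2
  have hloge0 : 0 ≤ -log e := by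
    have := log_nonpos he.le (by linarith : e ≤ 1)
    linarith
  -- eigenframe
  have hnear := (hG 0 (Nat.zero_le _)).near S.Npos S.E1000 (z := mid N (p 0))
    (by simp only [mid]; linarith) (by simp only [mid]; linarith) (by simp only [mid]; linarith)
    (by simp only [mid]; linarith)
  have hirr := (near_irreducible S hp0 (hG 0 (Nat.zero_le _))).1
  obtain ⟨Q, ν, hEF, hf0, hfm⟩ := exists_eframe L.E5 hnear (chain_off' S hp hpM hG) hirr
  have hdet : Q.det ≠ 0 := by
    intro h0
    have := hEF.det1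
    rw [h0, abs_zero] at this
    norm_num at this
  have hflat : ∀ z, Flat Q (1024 / E) z → Flat Q (e ^ 2) z := fun z h i j hij =>
    (h i j hij).trans L.e3
  have hflat' : ∀ z, Flat Q (e ^ 2) z → Flat Q (1 / 100) z := fun z h i j hij =>
    (h i j hij).trans (by nlinarith)
  obtain ⟨z, z', hz, hz', hb, hb', hs, hs', hcase⟩ := exists_edge (ε := e ^ 2) (b := N / 4)
    (F := exp (exp (2 * N)) / 12) (by positivity) (by positivity) (hflat _ hf0) (hflat _ hfm)
    (by simp only [mid]; constructor <;> linarith [hp0.1.1, hp0.2.1])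
    (by simp only [mid]; constructor <;> linarith [hpm.1.1, hpm.2.1])
    (by
      simp only [mid]
      rcases hfar with h | h
      · left
        rw [show (p m).1 + N / 2 - ((p 0).1 + N / 2) = (p m).1 - (p 0).1 by ring]
        linarith
      · right
        rw [show (p m).2 + N / 2 - ((p 0).2 + N / 2) = (p m).2 - (p 0).2 by ring]
        linarith)
  have hmax : max ((mid N (p 0)).1 + (mid N (p 0)).2) ((mid N (p m)).1 + (mid N (p m)).2) ≤
      2 * M := by
    apply max_le
    · simp only [mid]; linarith [hp0.1.2, hp0.2.2]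
    · simp only [mid]; linarith [hpm.1.2, hpm.2.2]
  have hsM := hs.trans hmax
  have hsM' := hs'.trans hmax
  have hin := inner_false S hEF hnear.unit (fun ν hν => no_unit S hp0 (hG 0 (Nat.zero_le _)) hν)
    (hflat' _ hz) (hflat' _ hz') ⟨by linarith [hb.1], by linarith [hb.2]⟩ hsM hMN
  rcases hcase with ⟨i, j, l, hij, hil, hjl, hq, hq', hwt⟩ | h | h
  · obtain ⟨d, hd1, hd2, hd12, hdl, hshift⟩ := shift_edge (Q := Q) he (by linarith) hij hil hjl
    obtain ⟨w, ω, hw, hωl, hωG, hωij⟩ := exists_good_unit hEF (e := e / 2) (by linarith)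
      (by linarith) hE1000 (by rw [one_div_div]; exact L.e2) hij hil hjl
    have hωij' : |log (ω i) - log (ω j)| ≤ e := by linarith
    have hθ := theta_low hdet hw hij hil hjl hωl hωG (hωij'.trans (by linarith))
    obtain ⟨s1, s2⟩ := hshift z hz hq
    obtain ⟨s1', s2'⟩ := hshift z' hz' hq'
    rw [abs_le] at hd1 hd2 hd12
    have hexpM : ∀ y : ℝ × ℝ, y.1 + y.2 ≤ 2 * M →
        300 * C' * exp ((y + d).1 + (y + d).2) ≤ exp (4 * M) := by
      intro y hy
      have h1 : 300 * C' ≤ exp (N / 4) := by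
        refine L.b.le.trans (exp_le_exp.2 ?_)
        linarith
      calc 300 * C' * exp ((y + d).1 + (y + d).2) ≤ exp (N / 4) * exp ((y + d).1 + (y + d).2) :=
            mul_le_mul_of_nonneg_right h1 (exp_pos _).le
        _ = exp (N / 4 + ((y + d).1 + (y + d).2)) := (exp_add _ _).symm
        _ ≤ exp (4 * M) := by
            apply exp_le_exp.2
            rw [Prod.fst_add, Prod.snd_add]
            linarith [hd12.2]
    refine edge_false (B := N / 4 + log e) (Qb := exp (4 * M)) (G := E ^ 63)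
      (θ₀ := exp (-(3 * E ^ 63)) / 2) (δ := δ') (C := C') (p := z + d) (p' := z' + d)
      (i := i) (j := j) (l := l)
      he he1 hC' hec S.prod hEF.one hdet hij hil hjl ?_ s1 s1' s2 s2' L.b ?_ ?_
      (hexpM z hsM) (hexpM z' hsM') hw hωl ((le_abs_self _).trans (hωG l)) (by positivity) hθ
      hωij' ?_
    · apply hloc
      · rw [Prod.fst_add]; linarith [hb.1, hd1.1]
      · rw [Prod.snd_add]; linarith [hb.2, hd2.1]
      · rw [Prod.fst_add, Prod.snd_add]; linarith [hd12.2]
    · rw [Prod.fst_add, Prod.snd_add]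
      constructor <;> linarith [hb.1, hb.2, hd1.1, hd2.1]
    · rw [Prod.fst_add, Prod.snd_add]
      constructor <;> linarith [hb'.1, hb'.2, hd1.1, hd2.1]
    · rw [wt_add, wt_add, hdl]
      have e1 : 2 / (exp (-(3 * E ^ 63)) / 2) * E ^ 63 = 4 * exp (3 * E ^ 63) * E ^ 63 := by
        have hx : exp (-(3 * E ^ 63)) * exp (3 * E ^ 63) = 1 := by
          rw [← exp_add, neg_add_cancel, exp_zero]
        have hx0 : exp (-(3 * E ^ 63)) ≠ 0 := exp_ne_zero _
        have h2 : 2 / (exp (-(3 * E ^ 63)) / 2) = 4 * exp (3 * E ^ 63) := by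
          rw [div_div_eq_mul_div, div_eq_iff hx0]
          linear_combination (-4) * hx
        rw [h2]
      rw [e1]
      linarith
  · exact hin.1 ⟨h.1, h.2.1, by linarith [h.2.2]⟩
  · exact hin.2 ⟨h.1, h.2.1, by linarith [h.2.2]⟩

end Pool.Agent.H6.LU
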