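import Pool.Agent.H6.LU.Form

/-!
# Units from congruent vectors of equal norm

With `X(x)` the matrix with columns `x, γ x, γ² x` and `D = FF γ x = FF γ x'`, the integer matrix
`X(x') adj X(x)` is divisible by `D`, because `X(x') ≡ X(x)` modulo `D`. The quotient `w` has
determinant `1`, and `w = (H Q) diag (yc x' / yc x) (H Q)⁻¹`.
-/

open Real Matrix

namespace Pool.Agent.H6.LU

open Pool.Agent.H6.LW

/-- the matrix with the columns `x, γ x, γ² x` -/
private def UnitOf_X (γ : Matrix (Fin 3) (Fin 3) ℤ) (x : Fin 3 → ℤ) : Matrix (Fin 3) (Fin 3) ℤ :=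
  (Matrix.of ![x, γ.mulVec x, γ.mulVec (γ.mulVec x)])ᵀ

private lemma UnitOf_det (γ : Matrix (Fin 3) (Fin 3) ℤ) (x : Fin 3 → ℤ) :
    (UnitOf_X γ x).det = FF γ x := Matrix.det_transpose _

private lemma UnitOf_mv (γ : Matrix (Fin 3) (Fin 3) ℤ) (x e : Fin 3 → ℤ) (D : ℤ) :
    γ.mulVec (fun k => x k + D * e k) = fun k => γ.mulVec x k + D * γ.mulVec e k := by
  ext i
  simp only [Matrix.mulVec, dotProduct, Fin.sum_univ_three]
  ring

private lemma UnitOf_add (γ : Matrix (Fin 3) (Fin 3) ℤ) (x e : Fin 3 → ℤ) (D : ℤ) (i j : Fin 3) :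
    UnitOf_X γ (fun k => x k + D * e k) i j = UnitOf_X γ x i j + D * UnitOf_X γ e i j := by
  fin_cases j
  · rfl
  · show γ.mulVec (fun k => x k + D * e k) i = γ.mulVec x i + D * γ.mulVec e i
    rw [UnitOf_mv]
  · show γ.mulVec (γ.mulVec (fun k => x k + D * e k)) i =
      γ.mulVec (γ.mulVec x) i + D * γ.mulVec (γ.mulVec e) i
    rw [UnitOf_mv, UnitOf_mv]

private lemma UnitOf_cv (γ : Matrix (Fin 3) (Fin 3) ℤ) (x : Fin 3 → ℤ) :
    cv (γ.mulVec x) = (rm γ).mulVec (cv x) := by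
  exact (rm_mulVec γ x).symm

private lemma UnitOf_real {α β E : ℝ} {γ : Matrix (Fin 3) (Fin 3) ℤ}
    {Q : Matrix (Fin 3) (Fin 3) ℝ} {ν : Fin 3 → ℝ} (h : EF α β E γ Q ν) (x : Fin 3 → ℤ) :
    rm (UnitOf_X γ x) = H α β * Q * Matrix.diagonal (yc α β Q (cv x)) *
      Matrix.of (fun l j : Fin 3 => ν l ^ (j : ℕ)) := by
  have hQ : Q.det ≠ 0 := abs_pos.1 (by linarith [h.det1])
  have hG : rm γ * (H α β * Q) = H α β * Q * Matrix.diagonal ν := by
    have h1 := h.eig
    rw [hg] at h1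
    calc rm γ * (H α β * Q) = (H α β * H α β) * rm γ * (H α β * Q) := by
          rw [H_mul_H, Matrix.one_mul]
      _ = H α β * (H α β * rm γ * H α β * Q) := by simp only [Matrix.mul_assoc]
      _ = H α β * (Q * Matrix.diagonal ν) := by rw [h1]
      _ = _ := by rw [Matrix.mul_assoc]
  set y := yc α β Q (cv x) with hy
  have hx : cv x = (H α β * Q).mulVec y := by
    rw [← Matrix.mulVec_mulVec, hy, Q_mulVec_yc hQ, Matrix.mulVec_mulVec, H_mul_H,
      Matrix.one_mulVec]
  have hstep : ∀ u : Fin 3 → ℝ, (rm γ).mulVec ((H α β * Q).mulVec u) =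
      (H α β * Q).mulVec ((Matrix.diagonal ν).mulVec u) := by
    intro u
    rw [Matrix.mulVec_mulVec, hG, ← Matrix.mulVec_mulVec]
  have h1 : cv (γ.mulVec x) = (H α β * Q).mulVec ((Matrix.diagonal ν).mulVec y) := by
    rw [UnitOf_cv, hx, hstep]
  have h2 : cv (γ.mulVec (γ.mulVec x)) =
      (H α β * Q).mulVec ((Matrix.diagonal ν).mulVec ((Matrix.diagonal ν).mulVec y)) := by
    rw [UnitOf_cv, h1, hstep]
  have hcol : ∀ (j : Fin 3) (i : Fin 3), rm (UnitOf_X γ x) i j =
      ((H α β * Q).mulVec (fun l => y l * ν l ^ (j : ℕ))) i := by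
    intro j i
    fin_cases j
    · show cv x i = _
      rw [hx]
      congr 2
      ext l
      simp
    · show cv (γ.mulVec x) i = _
      rw [h1]
      congr 2
      ext l
      simp [Matrix.mulVec_diagonal]
      ring
    · show cv (γ.mulVec (γ.mulVec x)) i = _
      rw [h2]
      congr 2
      ext l
      simp [Matrix.mulVec_diagonal]
      ring
  ext i j
  rw [hcol j i, Matrix.mul_assoc, Matrix.mul_apply]
  rw [Matrix.mulVec, dotProduct]
  apply Finset.sum_congr rfl
  intro l _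
  rw [Matrix.diagonal_mul]
  rfl

theorem exists_delta {α β E : ℝ} {γ : Matrix (Fin 3) (Fin 3) ℤ} {Q : Matrix (Fin 3) (Fin 3) ℝ}
    {ν : Fin 3 → ℝ} (h : EF α β E γ Q ν) {x x' : Fin 3 → ℤ} (hx : x ≠ 0)
    (hF : FF γ x = FF γ x') (hmod : ∀ i, FF γ x ∣ x' i - x i) :
    ∃ w : Matrix (Fin 3) (Fin 3) ℤ, w.det = 1 ∧
      hg α β w * Q = Q * Matrix.diagonal (fun l => yc α β Q (cv x') l / yc α β Q (cv x) l) := by
  have hD : FF γ x ≠ 0 := FF_ne_zero h.irr hx
  choose e he using hmod
  have hx' : x' = fun k => x k + FF γ x * e k := by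
    ext i
    have := he i
    linarith
  set D := FF γ x with hDdef
  set w : Matrix (Fin 3) (Fin 3) ℤ := 1 + UnitOf_X γ e * (UnitOf_X γ x).adjugate with hw
  have hwX : w * UnitOf_X γ x = UnitOf_X γ x' := by
    ext i j
    rw [hw, Matrix.add_mul, Matrix.one_mul, Matrix.mul_assoc, Matrix.adjugate_mul, UnitOf_det,
      hx', UnitOf_add, Matrix.mul_smul, Matrix.mul_one, Matrix.add_apply, Matrix.smul_apply,
      smul_eq_mul]
  have hdet : w.det = 1 := by
    have h1 := congrArg Matrix.det hwX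
    rw [Matrix.det_mul, UnitOf_det, UnitOf_det, ← hF] at h1
    have h2 : w.det * D = 1 * D := by rw [h1, one_mul]
    exact mul_right_cancel₀ hD h2
  refine ⟨w, hdet, ?_⟩
  -- over the reals
  have hreal : rm w * rm (UnitOf_X γ x) = rm (UnitOf_X γ x') := by
    rw [← hwX, rm_mul]
  rw [UnitOf_real h x, UnitOf_real h x'] at hreal
  have hFr := FF_eq h x
  have hD' : (FF γ x : ℝ) ≠ 0 := by exact_mod_cast hD
  rw [hFr] at hD'
  have hvand : vand ν ≠ 0 := fun h0 => hD' (by rw [h0]; ring)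
  have hy0 : ∀ l, yc α β Q (cv x) l ≠ 0 := by
    intro l h0
    apply hD'
    fin_cases l
    · have : yc α β Q (cv x) 0 = 0 := h0
      rw [this]; ring
    · have : yc α β Q (cv x) 1 = 0 := h0
      rw [this]; ring
    · have : yc α β Q (cv x) 2 = 0 := h0
      rw [this]; ring
  set V : Matrix (Fin 3) (Fin 3) ℝ := Matrix.of (fun l j : Fin 3 => ν l ^ (j : ℕ)) with hV
  have hVdet : V.det ≠ 0 := by
    have h1 : V.det = vand ν := by
      rw [Matrix.det_fin_three, vand]
      simp [hV]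
      ring
    rw [h1]
    exact hvand
  set y := yc α β Q (cv x) with hy
  set y' := yc α β Q (cv x') with hy'
  have hcancel : rm w * (H α β * Q * Matrix.diagonal y) = H α β * Q * Matrix.diagonal y' := by
    have h1 : rm w * (H α β * Q * Matrix.diagonal y) * V * V⁻¹ =
        H α β * Q * Matrix.diagonal y' * V * V⁻¹ := by
      rw [← hreal]
      simp only [Matrix.mul_assoc]
    rwa [Matrix.mul_nonsing_inv_cancel_right _ _ (isUnit_iff_ne_zero.2 hVdet),
      Matrix.mul_nonsing_inv_cancel_right _ _ (isUnit_iff_ne_zero.2 hVdet)] at h1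
  have hdd : Matrix.diagonal y * Matrix.diagonal (fun l => (y l)⁻¹) =
      (1 : Matrix (Fin 3) (Fin 3) ℝ) := by
    rw [Matrix.diagonal_mul_diagonal, ← Matrix.diagonal_one]
    congr 1
    ext l
    exact mul_inv_cancel₀ (hy0 l)
  have hdd' : Matrix.diagonal y' * Matrix.diagonal (fun l => (y l)⁻¹) =
      Matrix.diagonal (fun l => y' l / y l) := by
    rw [Matrix.diagonal_mul_diagonal]
    congr 1
  rw [hg]
  calc H α β * rm w * H α β * Q = H α β * (rm w * (H α β * Q * 1)) := by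
        simp only [Matrix.mul_assoc, Matrix.mul_one]
    _ = H α β * (rm w * (H α β * Q * Matrix.diagonal y) * Matrix.diagonal (fun l => (y l)⁻¹)) := by
        rw [← hdd]
        simp only [Matrix.mul_assoc]
    _ = H α β * (H α β * Q * Matrix.diagonal y' * Matrix.diagonal (fun l => (y l)⁻¹)) := by
        rw [hcancel]
    _ = (H α β * H α β) * (Q * (Matrix.diagonal y' * Matrix.diagonal (fun l => (y l)⁻¹))) := by
        simp only [Matrix.mul_assoc]
    _ = _ := by rw [H_mul_H, Matrix.one_mul, hdd']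

end Pool.Agent.H6.LU
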